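import Mathlib

set_option autoImplicit false

/-! The integral `∫_0^∞ t^(κ-1) / (1 + t) dt = π / sin(π κ)` and a bound for moments by tails. -/

namespace Pool.Agent.J4H72.LP

open MeasureTheory Set Real

lemma lint_exp (c : ℝ) (hc : 0 < c) : ∫⁻ r in Ioi (0 : ℝ), ENNReal.ofReal (exp (-(c * r))) = ENNReal.ofReal (1 / c) := by
  have h1 := integral_exp_mul_Ioi (a := -c) (by linarith) 0
  have h2 : (∫ x in Ioi (0 : ℝ), exp (-(c * x))) = 1 / c := by
    have e : ∀ x : ℝ, exp (-(c * x)) = exp (-c * x) := fun x => by ring_nf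
    simp_rw [e]
    rw [h1]
    simp
  have h3 : Integrable (fun x => exp (-(c * x))) (volume.restrict (Ioi (0 : ℝ))) := by
    by_contra hcon
    rw [integral_undef hcon] at h2
    have : 0 < 1 / c := by positivity
    linarith
  rw [← h2, ofReal_integral_eq_lintegral_ofReal h3]
  exact Filter.Eventually.of_forall fun x => (exp_pos _).le

lemma lint_gamma (κ r : ℝ) (hκ : 0 < κ) (hr : 0 < r) :
    ∫⁻ t in Ioi (0 : ℝ), ENNReal.ofReal (t ^ (κ - 1) * exp (-(r * t))) = ENNReal.ofReal ((1 / r) ^ κ * Gamma κ) := by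
  have h2 := integral_rpow_mul_exp_neg_mul_Ioi hκ hr
  have h3 : Integrable (fun t => t ^ (κ - 1) * exp (-(r * t))) (volume.restrict (Ioi (0 : ℝ))) := by
    by_contra hcon
    rw [integral_undef hcon] at h2
    have h4 : 0 < (1 / r) ^ κ * Gamma κ := mul_pos (by positivity) (Gamma_pos_of_pos hκ)
    linarith
  rw [← h2, ofReal_integral_eq_lintegral_ofReal h3]
  rw [Filter.EventuallyLE, ae_restrict_iff' measurableSet_Ioi]
  exact Filter.Eventually.of_forall fun x hx => mul_nonneg (rpow_nonneg (le_of_lt hx) _) (exp_pos _).le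

lemma lint_beta (κ : ℝ) (h0 : 0 < κ) (h1 : κ < 1) :
    ∫⁻ t in Ioi (0 : ℝ), ENNReal.ofReal (t ^ (κ - 1) / (1 + t)) = ENNReal.ofReal (π / sin (π * κ)) := by
  have e1 : ∀ t ∈ Ioi (0 : ℝ), ENNReal.ofReal (t ^ (κ - 1) / (1 + t)) =
      ∫⁻ r in Ioi (0 : ℝ), ENNReal.ofReal (t ^ (κ - 1) * exp (-((1 + t) * r))) := by
    intro t ht
    have ht0 : (0 : ℝ) < t := ht
    have h2 := lint_exp (1 + t) (by linarith)
    have h3 : ∀ r : ℝ, ENNReal.ofReal (t ^ (κ - 1) * exp (-((1 + t) * r))) =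
        ENNReal.ofReal (t ^ (κ - 1)) * ENNReal.ofReal (exp (-((1 + t) * r))) := fun r =>
      ENNReal.ofReal_mul (rpow_nonneg ht0.le _)
    simp_rw [h3]
    rw [lintegral_const_mul _ (by fun_prop), h2, ← ENNReal.ofReal_mul (rpow_nonneg ht0.le _), mul_one_div]
  rw [setLIntegral_congr_fun measurableSet_Ioi e1]
  rw [lintegral_lintegral_swap]
  · have e2 : ∀ r ∈ Ioi (0 : ℝ), ∫⁻ t in Ioi (0 : ℝ), ENNReal.ofReal (t ^ (κ - 1) * exp (-((1 + t) * r))) =
        ENNReal.ofReal (Gamma κ) * ENNReal.ofReal (exp (-r) * r ^ ((1 - κ) - 1)) := by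
      intro r hr
      have hr0 : (0 : ℝ) < r := hr
      have h2 := lint_gamma κ r h0 hr0
      have h3 : ∀ t : ℝ, t ^ (κ - 1) * exp (-((1 + t) * r)) = exp (-r) * (t ^ (κ - 1) * exp (-(r * t))) := by
        intro t
        have : -((1 + t) * r) = -r + -(r * t) := by ring
        rw [this, exp_add]
        ring
      have h4 : ∀ t : ℝ, ENNReal.ofReal (t ^ (κ - 1) * exp (-((1 + t) * r))) =
          ENNReal.ofReal (exp (-r)) * ENNReal.ofReal (t ^ (κ - 1) * exp (-(r * t))) := fun t => by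
        rw [h3, ENNReal.ofReal_mul (exp_pos _).le]
      simp_rw [h4]
      rw [lintegral_const_mul _ (by fun_prop), h2, ← ENNReal.ofReal_mul (exp_pos _).le,
        ← ENNReal.ofReal_mul (Gamma_pos_of_pos h0).le]
      congr 1
      have h5 : (1 / r) ^ κ = r ^ ((1 - κ) - 1) := by
        rw [one_div, inv_rpow hr0.le, ← rpow_neg hr0.le]
        congr 1
        ring
      rw [h5]
      ring
    rw [setLIntegral_congr_fun measurableSet_Ioi e2, lintegral_const_mul _ (by fun_prop)]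
    have h6 := GammaIntegral_convergent (s := 1 - κ) (by linarith)
    have h7 := ofReal_integral_eq_lintegral_ofReal h6 (by
      rw [Filter.EventuallyLE, ae_restrict_iff' measurableSet_Ioi]
      exact Filter.Eventually.of_forall fun x hx => mul_nonneg (exp_pos _).le (rpow_nonneg (le_of_lt hx) _))
    rw [← h7, ← Gamma_eq_integral (by linarith), ← ENNReal.ofReal_mul (Gamma_pos_of_pos h0).le,
      Gamma_mul_Gamma_one_sub]
  · apply Measurable.aemeasurable
    unfold Function.uncurry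
    fun_prop

lemma sin_pos' (κ : ℝ) (h0 : 0 < κ) (h1 : κ < 1) : 0 < sin (π * κ) :=
  sin_pos_of_pos_of_lt_pi (mul_pos pi_pos h0) (by nlinarith [pi_pos])

/-- scaled -/
lemma lint_beta_scaled (κ s : ℝ) (h0 : 0 < κ) (h1 : κ < 1) (hs : 0 < s) :
    ∫⁻ x in Ioi (0 : ℝ), ENNReal.ofReal (κ * x ^ (κ - 1) * (1 / (1 + x / s))) =
      ENNReal.ofReal (s ^ κ * (π * κ / sin (π * κ))) := by
  have h2 := lint_beta κ h0 h1
  have h3 : (∫ t in Ioi (0 : ℝ), t ^ (κ - 1) / (1 + t)) = π / sin (π * κ) := by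
    have hpos : 0 < π / sin (π * κ) := div_pos pi_pos (sin_pos' κ h0 h1)
    rw [integral_eq_lintegral_of_nonneg_ae, h2, ENNReal.toReal_ofReal hpos.le]
    · rw [Filter.EventuallyLE, ae_restrict_iff' measurableSet_Ioi]
      exact Filter.Eventually.of_forall fun x hx => by
        have hx0 : (0 : ℝ) < x := hx
        show 0 ≤ x ^ (κ - 1) / (1 + x)
        positivity
    · apply Measurable.aestronglyMeasurable
      fun_prop
  have h4 : (∫ x in Ioi (0 : ℝ), κ * x ^ (κ - 1) * (1 / (1 + x / s))) = s ^ κ * (π * κ / sin (π * κ)) := by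
    have h5 := integral_comp_mul_left_Ioi (fun t => t ^ (κ - 1) / (1 + t)) 0 (inv_pos.2 hs)
    rw [mul_zero, h3, inv_inv, smul_eq_mul] at h5
    have h6 : ∀ x ∈ Ioi (0 : ℝ), κ * x ^ (κ - 1) * (1 / (1 + x / s)) =
        (κ * s ^ (κ - 1)) * ((s⁻¹ * x) ^ (κ - 1) / (1 + s⁻¹ * x)) := by
      intro x hx
      have hx0 : (0 : ℝ) < x := hx
      rw [mul_rpow (inv_pos.2 hs).le hx0.le, inv_rpow hs.le]
      have h7 : s ^ (κ - 1) ≠ 0 := (rpow_pos_of_pos hs _).ne'
      field_simp
    rw [setIntegral_congr_fun measurableSet_Ioi h6, integral_const_mul, h5]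
    have h8 : s ^ κ = s ^ (κ - 1) * s := by
      rw [← rpow_add_one hs.ne']
      congr 1
      ring
    rw [h8]
    ring
  have hpos : 0 < s ^ κ * (π * κ / sin (π * κ)) :=
    mul_pos (by positivity) (div_pos (mul_pos pi_pos h0) (sin_pos' κ h0 h1))
  have h9 : Integrable (fun x => κ * x ^ (κ - 1) * (1 / (1 + x / s))) (volume.restrict (Ioi (0 : ℝ))) := by
    by_contra hcon
    rw [integral_undef hcon] at h4
    linarith
  rw [← h4, ofReal_integral_eq_lintegral_ofReal h9]
  rw [Filter.EventuallyLE, ae_restrict_iff' measurableSet_Ioi]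
  exact Filter.Eventually.of_forall fun x hx => by
    have hx0 : (0 : ℝ) < x := hx
    show 0 ≤ κ * x ^ (κ - 1) * (1 / (1 + x / s))
    positivity

/-- the layer cake formula for one number -/
lemma layer (κ P : ℝ) (h0 : 0 < κ) (hP : 0 ≤ P) :
    ∫⁻ x in Ioi (0 : ℝ), (if x < P then ENNReal.ofReal (κ * x ^ (κ - 1)) else 0) = ENNReal.ofReal (P ^ κ) := by
  have h1 : ∀ x : ℝ, (if x < P then ENNReal.ofReal (κ * x ^ (κ - 1)) else 0) =
      (Iio P).indicator (fun x => ENNReal.ofReal (κ * x ^ (κ - 1))) x := by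
    intro x
    rw [indicator_apply]
    simp only [mem_Iio]
  simp_rw [h1]
  rw [lintegral_indicator measurableSet_Iio, Measure.restrict_restrict measurableSet_Iio]
  have h2 : Iio P ∩ Ioi (0 : ℝ) = Ioo 0 P := by
    ext x
    simp only [mem_inter_iff, mem_Iio, mem_Ioi, mem_Ioo]
    tauto
  rw [h2, restrict_Ioo_eq_restrict_Ioc]
  have h3 : IntervalIntegrable (fun x : ℝ => κ * x ^ (κ - 1)) volume 0 P :=
    (intervalIntegral.intervalIntegrable_rpow' (by linarith)).const_mul κ
  have h4 : (∫ x in (0 : ℝ)..P, κ * x ^ (κ - 1)) = P ^ κ := by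
    rw [intervalIntegral.integral_const_mul, integral_rpow (Or.inl (by linarith))]
    rw [sub_add_cancel, zero_rpow h0.ne', sub_zero]
    field_simp
  rw [← h4, intervalIntegral.integral_of_le hP]
  rw [intervalIntegrable_iff_integrableOn_Ioc_of_le hP] at h3
  rw [ofReal_integral_eq_lintegral_ofReal h3]
  rw [Filter.EventuallyLE, ae_restrict_iff' measurableSet_Ioc]
  exact Filter.Eventually.of_forall fun x hx => by
    have hx0 : (0 : ℝ) < x := hx.1
    show 0 ≤ κ * x ^ (κ - 1)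
    positivity

/-- the tail beyond `Y` -/
lemma lint_tail (κ W Y : ℝ) (h0 : 0 < κ) (h1 : κ < 1) (hW : 0 ≤ W) (hY : 0 < Y) :
    ∫⁻ x in Ioi (0 : ℝ), (if Y < x then ENNReal.ofReal (κ * x ^ (κ - 1) * (W / x)) else 0) =
      ENNReal.ofReal (W * (κ / (1 - κ)) * Y ^ (κ - 1)) := by
  have e1 : ∀ x : ℝ, (if Y < x then ENNReal.ofReal (κ * x ^ (κ - 1) * (W / x)) else 0) =
      (Ioi Y).indicator (fun x => ENNReal.ofReal (κ * x ^ (κ - 1) * (W / x))) x := by
    intro x
    rw [indicator_apply]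
    simp only [mem_Ioi]
  simp_rw [e1]
  rw [lintegral_indicator measurableSet_Ioi, Measure.restrict_restrict measurableSet_Ioi]
  have h2 : Ioi Y ∩ Ioi (0 : ℝ) = Ioi Y := by
    ext x
    simp only [mem_inter_iff, mem_Ioi]
    constructor
    · exact fun h => h.1
    · exact fun h => ⟨h, hY.trans h⟩
  rw [h2]
  have e2 : ∀ x ∈ Ioi Y, ENNReal.ofReal (κ * x ^ (κ - 1) * (W / x)) = ENNReal.ofReal (κ * W * x ^ (κ - 2)) := by
    intro x hx
    have hx0 : (0 : ℝ) < x := hY.trans hx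
    congr 1
    have h3 : x ^ (κ - 1) = x ^ (κ - 2) * x := by
      rw [← rpow_add_one hx0.ne']
      congr 1
      ring
    rw [h3]
    field_simp
  rw [setLIntegral_congr_fun measurableSet_Ioi e2]
  have h5 : IntegrableOn (fun x : ℝ => κ * W * x ^ (κ - 2)) (Ioi Y) :=
    (integrableOn_Ioi_rpow_of_lt (by linarith) hY).const_mul _
  have h6 : (∫ x in Ioi Y, κ * W * x ^ (κ - 2)) = W * (κ / (1 - κ)) * Y ^ (κ - 1) := by
    rw [integral_const_mul, integral_Ioi_rpow_of_lt (by linarith) hY]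
    have h7 : κ - 2 + 1 = -(1 - κ) := by ring
    have h8 : κ - 1 = -(1 - κ) := by ring
    rw [h7, h8]
    have h9 : (1 - κ) ≠ 0 := by linarith
    field_simp
  rw [← h6, ofReal_integral_eq_lintegral_ofReal h5]
  rw [Filter.EventuallyLE, ae_restrict_iff' measurableSet_Ioi]
  exact Filter.Eventually.of_forall fun x hx => by
    have hx0 : (0 : ℝ) < x := hY.trans hx
    show 0 ≤ κ * W * x ^ (κ - 2)
    positivity

/-- **Moments from tails.** -/
theorem moment_le (κ : ℝ) (h0 : 0 < κ) (h1 : κ < 1) (F : Finset ℕ) (P : ℕ → ℝ) (hP : ∀ b, 0 ≤ P b)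
    (n₁ n₂ s A W Y : ℝ) (hn₁ : 0 ≤ n₁) (hn₂ : 0 ≤ n₂) (hs : 0 < s) (hA : 0 ≤ A) (hW : 0 ≤ W) (hY : 0 < Y)
    (H : ∀ x : ℝ, 0 < x → ((F.filter (fun b => x < P b)).card : ℝ) ≤
      (if x < A then n₁ else 0) + n₂ * (1 / (1 + x / s)) + (if Y < x then W / x else 0)) :
    ∑ b ∈ F, P b ^ κ ≤ n₁ * A ^ κ + n₂ * (s ^ κ * (π * κ / sin (π * κ))) + W * (κ / (1 - κ)) * Y ^ (κ - 1) := by
  have hT : 0 ≤ W * (κ / (1 - κ)) * Y ^ (κ - 1) := by
    have : 0 < 1 - κ := by linarith
    positivity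
  have hS : 0 ≤ n₂ * (s ^ κ * (π * κ / sin (π * κ))) := by
    have := sin_pos' κ h0 h1
    have := pi_pos
    positivity
  have hR : 0 ≤ n₁ * A ^ κ := by positivity
  have key : ENNReal.ofReal (∑ b ∈ F, P b ^ κ) ≤
      ENNReal.ofReal (n₁ * A ^ κ + n₂ * (s ^ κ * (π * κ / sin (π * κ))) + W * (κ / (1 - κ)) * Y ^ (κ - 1)) := by
    rw [ENNReal.ofReal_sum_of_nonneg (fun b _ => rpow_nonneg (hP b) _)]
    have e1 : ∀ b ∈ F, ENNReal.ofReal (P b ^ κ) =
        ∫⁻ x in Ioi (0 : ℝ), (if x < P b then ENNReal.ofReal (κ * x ^ (κ - 1)) else 0) :=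
      fun b _ => (layer κ (P b) h0 (hP b)).symm
    rw [Finset.sum_congr rfl e1, ← lintegral_finsetSum]
    · rw [ENNReal.ofReal_add (by positivity) hT, ENNReal.ofReal_add hR hS]
      rw [← lint_tail κ W Y h0 h1 hW hY]
      rw [ENNReal.ofReal_mul hn₂, ← lint_beta_scaled κ s h0 h1 hs, ← lintegral_const_mul _ (by fun_prop)]
      rw [ENNReal.ofReal_mul hn₁, ← layer κ A h0 hA]
      rw [← lintegral_const_mul _ (by
        apply Measurable.ite measurableSet_Iio (by fun_prop) (by fun_prop))]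
      rw [← lintegral_add_left (by
        apply Measurable.const_mul
        apply Measurable.ite measurableSet_Iio (by fun_prop) (by fun_prop))]
      rw [← lintegral_add_right _ (by
        apply Measurable.ite measurableSet_Ioi (by fun_prop) (by fun_prop))]
      apply setLIntegral_mono' measurableSet_Ioi
      intro x hx
      have hx0 : (0 : ℝ) < x := hx
      have hk : 0 ≤ κ * x ^ (κ - 1) := by positivity
      rw [← Finset.sum_filter, Finset.sum_const, nsmul_eq_mul]
      have e2 : ((Finset.card (F.filter (fun b => x < P b)) : ℕ) : ENNReal) * ENNReal.ofReal (κ * x ^ (κ - 1)) =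
          ENNReal.ofReal (((F.filter (fun b => x < P b)).card : ℝ) * (κ * x ^ (κ - 1))) := by
        rw [ENNReal.ofReal_mul (Nat.cast_nonneg _), ENNReal.ofReal_natCast]
      rw [e2]
      have e3 : ENNReal.ofReal n₁ * (if x < A then ENNReal.ofReal (κ * x ^ (κ - 1)) else 0) =
          ENNReal.ofReal ((if x < A then n₁ else 0) * (κ * x ^ (κ - 1))) := by
        split_ifs
        · rw [ENNReal.ofReal_mul hn₁]
        · simp
      have e4 : (if Y < x then ENNReal.ofReal (κ * x ^ (κ - 1) * (W / x)) else 0) =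
          ENNReal.ofReal ((if Y < x then W / x else 0) * (κ * x ^ (κ - 1))) := by
        split_ifs
        · rw [mul_comm]
        · simp
      rw [e3, e4, ← ENNReal.ofReal_mul hn₂]
      have g1 : 0 ≤ (if x < A then n₁ else 0) * (κ * x ^ (κ - 1)) := by
        split_ifs
        · positivity
        · simp
      have g2 : 0 ≤ n₂ * (κ * x ^ (κ - 1) * (1 / (1 + x / s))) := by positivity
      have g3 : 0 ≤ (if Y < x then W / x else 0) * (κ * x ^ (κ - 1)) := by
        split_ifs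
        · positivity
        · simp
      rw [← ENNReal.ofReal_add g1 g2, ← ENNReal.ofReal_add (by positivity) g3]
      apply ENNReal.ofReal_le_ofReal
      have g4 := mul_le_mul_of_nonneg_right (H x hx0) hk
      refine g4.trans (le_of_eq ?_)
      ring
    · intro b _
      apply Measurable.ite measurableSet_Iio (by fun_prop) (by fun_prop)
  rwa [ENNReal.ofReal_le_ofReal_iff (by positivity)] at key

end Pool.Agent.J4H72.LP
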