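import Pool.Agent.J4H72.LP.Beta

set_option autoImplicit false

/-! A lower bound for moments. -/

namespace Pool.Agent.J4H72.LP

open MeasureTheory Set Real

theorem moment_ge (κ : ℝ) (h0 : 0 < κ) (F : Finset ℕ) (P : ℕ → ℝ) (hP : ∀ b, 0 ≤ P b)
    (c d s : ℝ) (hs : 0 < s) (hd : 0 ≤ d) (hcd : 0 ≤ c - d * s)
    (H : ∀ x : ℝ, 0 < x → x ≤ s → c - d * x ≤ ((F.filter (fun b => x < P b)).card : ℝ)) :
    c * s ^ κ - d * (κ / (κ + 1)) * s ^ (κ + 1) ≤ ∑ b ∈ F, P b ^ κ := by
  have hnn : ∀ x ∈ Ioc (0 : ℝ) s, 0 ≤ κ * x ^ (κ - 1) * (c - d * x) := by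
    intro x hx
    have hx0 : 0 < x := hx.1
    have h1 : 0 ≤ c - d * x := by
      have := mul_le_mul_of_nonneg_left hx.2 hd
      linarith
    positivity
  have i1 : IntervalIntegrable (fun x : ℝ => x ^ (κ - 1)) volume 0 s :=
    intervalIntegral.intervalIntegrable_rpow' (by linarith)
  have i2 : IntervalIntegrable (fun x : ℝ => x ^ κ) volume 0 s :=
    intervalIntegral.intervalIntegrable_rpow' (by linarith)
  have hI : (∫ x in (0 : ℝ)..s, (κ * c * x ^ (κ - 1) - κ * d * x ^ κ)) =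
      c * s ^ κ - d * (κ / (κ + 1)) * s ^ (κ + 1) := by
    rw [intervalIntegral.integral_sub (i1.const_mul _) (i2.const_mul _), intervalIntegral.integral_const_mul,
      intervalIntegral.integral_const_mul, integral_rpow (Or.inl (by linarith)), integral_rpow (Or.inl (by linarith))]
    rw [sub_add_cancel, zero_rpow h0.ne', zero_rpow (by linarith : κ + 1 ≠ 0), sub_zero, sub_zero]
    have : κ + 1 ≠ 0 := by linarith
    field_simp
  have e0 : ∀ x ∈ Ioc (0 : ℝ) s, κ * x ^ (κ - 1) * (c - d * x) = κ * c * x ^ (κ - 1) - κ * d * x ^ κ := by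
    intro x hx
    have hx0 : 0 < x := hx.1
    have h1 : x ^ κ = x ^ (κ - 1) * x := by
      rw [← rpow_add_one hx0.ne', sub_add_cancel]
    rw [h1]
    ring
  have hint : IntegrableOn (fun x : ℝ => κ * c * x ^ (κ - 1) - κ * d * x ^ κ) (Ioc 0 s) :=
    (intervalIntegrable_iff_integrableOn_Ioc_of_le hs.le).1 ((i1.const_mul _).sub (i2.const_mul _))
  rw [← hI, intervalIntegral.integral_of_le hs.le]
  have hsum0 : 0 ≤ ∑ b ∈ F, P b ^ κ := Finset.sum_nonneg fun b _ => rpow_nonneg (hP b) _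
  rw [← ENNReal.ofReal_le_ofReal_iff hsum0]
  rw [ofReal_integral_eq_lintegral_ofReal hint (by
    rw [Filter.EventuallyLE, ae_restrict_iff' measurableSet_Ioc]
    exact Filter.Eventually.of_forall fun x hx => by
      have := hnn x hx
      rw [e0 x hx] at this
      exact this)]
  rw [ENNReal.ofReal_sum_of_nonneg (fun b _ => rpow_nonneg (hP b) _)]
  have e1 : ∀ b ∈ F, ENNReal.ofReal (P b ^ κ) =
      ∫⁻ x in Ioi (0 : ℝ), (if x < P b then ENNReal.ofReal (κ * x ^ (κ - 1)) else 0) :=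
    fun b _ => (layer κ (P b) h0 (hP b)).symm
  rw [Finset.sum_congr rfl e1, ← lintegral_finsetSum]
  · have h2 : Ioc (0 : ℝ) s ⊆ Ioi 0 := fun x hx => hx.1
    refine le_trans ?_ (lintegral_mono_set h2)
    apply setLIntegral_mono' measurableSet_Ioc
    intro x hx
    have hx0 : (0 : ℝ) < x := hx.1
    have hk : 0 ≤ κ * x ^ (κ - 1) := by positivity
    rw [← Finset.sum_filter, Finset.sum_const, nsmul_eq_mul]
    have e2 : ((Finset.card (F.filter (fun b => x < P b)) : ℕ) : ENNReal) * ENNReal.ofReal (κ * x ^ (κ - 1)) =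
        ENNReal.ofReal (((F.filter (fun b => x < P b)).card : ℝ) * (κ * x ^ (κ - 1))) := by
      rw [ENNReal.ofReal_mul (Nat.cast_nonneg _), ENNReal.ofReal_natCast]
    rw [e2, ← e0 x hx]
    apply ENNReal.ofReal_le_ofReal
    have g4 := mul_le_mul_of_nonneg_left (H x hx0 hx.2) hk
    refine g4.trans (le_of_eq ?_)
    ring
  · intro b _
    apply Measurable.ite measurableSet_Iio (by fun_prop) (by fun_prop)

end Pool.Agent.J4H72.LP
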