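import Pool.Agent.J4H72.LP.Tail
import Pool.Agent.Results.MP_00e23e_nt.LogLogLoss

set_option autoImplicit false

/-! The largest least prime modulo almost all moduli: the quality of the Riemann hypothesis up to `log log`. -/

namespace Pool.Agent.J4H72.LP

open Finset

lemma log_one_le {x : ℝ} (hx : 3 ≤ x) : 1 ≤ Real.log x := by
  rw [Real.le_log_iff_exp_le (by linarith)]
  have := Real.exp_one_lt_d9
  linarith

lemma li_ge (x : ℝ) (hx : 8 ≤ x) : x / (2 * Real.log x) ≤ ∫ t in (2 : ℝ)..x, 1 / Real.log t := by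
  have hlog : 1 ≤ Real.log x := log_one_le (by linarith)
  have h1 : (∫ _t in (2 : ℝ)..x, 1 / Real.log x) ≤ ∫ t in (2 : ℝ)..x, 1 / Real.log t := by
    apply intervalIntegral.integral_mono_on (by linarith)
    · exact intervalIntegrable_const
    · apply ContinuousOn.intervalIntegrable
      apply ContinuousOn.div continuousOn_const
      · apply Real.continuousOn_log.mono
        intro t ht
        rw [Set.uIcc_of_le (by linarith)] at ht
        simp only [Set.mem_compl_iff, Set.mem_singleton_iff]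
        linarith [ht.1]
      · intro t ht
        rw [Set.uIcc_of_le (by linarith)] at ht
        exact (Real.log_pos (by linarith [ht.1])).ne'
    · intro t ht
      apply one_div_le_one_div_of_le (Real.log_pos (by linarith [ht.1]))
      exact Real.log_le_log (by linarith [ht.1]) ht.2
  rw [intervalIntegral.integral_const, smul_eq_mul] at h1
  refine le_trans ?_ h1
  rw [mul_one_div, div_le_div_iff₀ (by positivity) (by positivity)]
  nlinarith

lemma grh_alg {Sc N lx x C0 P Pl s sx ll c1 c2 l m : ℝ} (hN : 0 < N) (hx : 0 < x) (hlx : 0 < lx) (hPl : 0 < Pl)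
    (hPP : Pl ≤ P) (hC0 : 0 ≤ C0) (hsx : sx = s * (N * l * m ^ 2)) (hxs : x = sx * sx) (hs : 0 < s) (hl : 0 < l)
    (hm : 0 < m) (hc1 : 0 ≤ c1) (hlogx : lx ≤ c1 * l) (hll0 : 0 ≤ ll) (hll : ll ≤ c2 * (1.02 * m))
    (h2 : Sc * ((x / (2 * lx)) / (2 * N)) ≤ C0 * (x / (P * lx) + 2 * N * sx * ll ^ 2)) :
    Sc ≤ (4 * C0 + 9 * C0 * c1 * c2 ^ 2) * (N * (1 / s + 1 / Pl)) := by
  have hP : 0 < P := hPl.trans_le hPP
  have hsx0 : 0 < sx := by rw [hsx]; positivity
  have e1 : Sc = 4 * N * lx / x * (Sc * ((x / (2 * lx)) / (2 * N))) := by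
    field_simp
    ring
  have h3 : Sc ≤ 4 * N * lx / x * (C0 * (x / (P * lx) + 2 * N * sx * ll ^ 2)) := by
    rw [e1]
    exact mul_le_mul_of_nonneg_left h2 (by positivity)
  have t1 : 4 * N * lx / x * (C0 * (x / (P * lx))) ≤ 4 * C0 * (N * (1 / Pl)) := by
    have e1 : 4 * N * lx / x * (C0 * (x / (P * lx))) = 4 * C0 * (N * (1 / P)) := by
      field_simp
    rw [e1]
    apply mul_le_mul_of_nonneg_left _ (by positivity)
    apply mul_le_mul_of_nonneg_left _ hN.le
    exact one_div_le_one_div_of_le hPl hPP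
  have t2 : 4 * N * lx / x * (C0 * (2 * N * sx * ll ^ 2)) ≤ (8 * C0 * c1 * c2 ^ 2 * 1.02 ^ 2) * (N * (1 / s)) := by
    have e1 : 4 * N * lx / x * (C0 * (2 * N * sx * ll ^ 2)) = 8 * C0 * N ^ 2 * (lx * ll ^ 2) / sx := by
      rw [hxs]
      field_simp
      ring
    rw [e1, div_le_iff₀ hsx0, hsx]
    have e2 : lx * ll ^ 2 ≤ (c1 * l) * (c2 * (1.02 * m)) ^ 2 := by
      apply mul_le_mul hlogx _ (by positivity) (by positivity)
      exact pow_le_pow_left₀ hll0 hll 2
    calc 8 * C0 * N ^ 2 * (lx * ll ^ 2)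
        ≤ 8 * C0 * N ^ 2 * ((c1 * l) * (c2 * (1.02 * m)) ^ 2) := by gcongr
      _ = (8 * C0 * c1 * c2 ^ 2 * 1.02 ^ 2) * (N * (1 / s)) * (s * (N * l * m ^ 2)) := by
          field_simp
  have t3 : 0 ≤ 1 / s := by positivity
  have t4 : 0 ≤ 1 / Pl := by positivity
  have t5 : 0 ≤ C0 * c1 * c2 ^ 2 := by positivity
  have t6 : (8 * C0 * c1 * c2 ^ 2 * 1.02 ^ 2) * (N * (1 / s)) ≤ (9 * C0 * c1 * c2 ^ 2) * (N * (1 / s)) := by
    apply mul_le_mul_of_nonneg_right _ (by positivity)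
    have : 8 * C0 * c1 * c2 ^ 2 * 1.02 ^ 2 = 8.3232 * (C0 * c1 * c2 ^ 2) := by ring
    rw [this]
    have : 9 * C0 * c1 * c2 ^ 2 = 9 * (C0 * c1 * c2 ^ 2) := by ring
    rw [this]
    apply mul_le_mul_of_nonneg_right _ t5
    norm_num
  rw [mul_add C0, mul_add] at h3
  calc Sc ≤ 4 * C0 * (N * (1 / Pl)) + (9 * C0 * c1 * c2 ^ 2) * (N * (1 / s)) := h3.trans (add_le_add t1 (t2.trans t6))
    _ ≤ (4 * C0 + 9 * C0 * c1 * c2 ^ 2) * (N * (1 / s + 1 / Pl)) := by
        have u1 : 0 ≤ 4 * C0 * (N * (1 / s)) := by positivity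
        have u2 : 0 ≤ 9 * C0 * c1 * c2 ^ 2 * (N * (1 / Pl)) := by positivity
        have u3 : (4 * C0 + 9 * C0 * c1 * c2 ^ 2) * (N * (1 / s + 1 / Pl)) =
          4 * C0 * (N * (1 / Pl)) + (9 * C0 * c1 * c2 ^ 2) * (N * (1 / s)) + (4 * C0 * (N * (1 / s)) +
            9 * C0 * c1 * c2 ^ 2 * (N * (1 / Pl))) := by ring
        rw [u3]
        linarith

/-- the constant `K` is at most a power of the logarithm -/
lemma grh_small (U : ℕ) : ∃ C : ℝ, 0 ≤ C ∧ ∀ N : ℕ, 16 ≤ N → ∀ K : ℝ, 1 ≤ K → K ≤ Real.log N ^ (2 * U) →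
    ∀ S : Finset ℕ, S ⊆ Ioc N (2 * N) →
      (∀ a ∈ S, (lateS a (K * (N : ℝ) ^ 2 * Real.log N ^ 2 * Real.log (Real.log N) ^ 4)).Nonempty) →
      (S.card : ℝ) ≤ C * (N * (1 / Real.sqrt K + 1 / Real.log N ^ U)) := by
  classical
  obtain ⟨C0', h0'⟩ := Pool.Agent.Results.MP_00e23e_nt.LogLogLoss.result (U + 1)
  obtain ⟨C0, hC0d⟩ : ∃ C0, C0 = max C0' 0 := ⟨_, rfl⟩
  have hC0 : 0 ≤ C0 := by rw [hC0d]; exact le_max_right _ _
  obtain ⟨c1, hc1⟩ : ∃ c1 : ℝ, c1 = 2 * U + 8 := ⟨_, rfl⟩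
  have hc18 : 8 ≤ c1 := by rw [hc1]; have : (0 : ℝ) ≤ U := Nat.cast_nonneg _; linarith
  obtain ⟨c2, hc2⟩ : ∃ c2 : ℝ, c2 = Real.log c1 + 1 := ⟨_, rfl⟩
  have hc21 : 1 ≤ c2 := by
    rw [hc2]
    have := Real.log_nonneg (show (1 : ℝ) ≤ c1 by linarith)
    linarith
  refine ⟨4 * C0 + 9 * C0 * c1 * c2 ^ 2, by positivity, fun N hN K hK1 hKU S hS hlate => ?_⟩
  have hNr : (16 : ℝ) ≤ N := by exact_mod_cast hN
  have hN0 : (0 : ℝ) < N := by linarith
  have hlogN : 2.7 ≤ Real.log N := by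
    have h1 : Real.log 16 ≤ Real.log N := Real.log_le_log (by norm_num) hNr
    have h2 : Real.log 16 = 4 * Real.log 2 := by
      rw [show (16 : ℝ) = 2 ^ 4 by norm_num, Real.log_pow]; norm_num
    have := Real.log_two_gt_d9
    linarith
  obtain ⟨l, hl⟩ : ∃ l, l = Real.log N := ⟨_, rfl⟩
  rw [← hl] at hlogN hKU
  have hl0 : 0 < l := by linarith
  have hll : 0.99 ≤ Real.log l := by
    have h1 : Real.log 2.7 ≤ Real.log l := Real.log_le_log (by norm_num) hlogN
    have h2 : (0.99 : ℝ) ≤ Real.log 2.7 := by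
      rw [Real.le_log_iff_exp_le (by norm_num)]
      have h3 := Real.exp_one_lt_d9
      have h4 : Real.exp 0.99 = Real.exp 1 * Real.exp (-0.01) := by rw [← Real.exp_add]; norm_num
      have h5 : Real.exp (-0.01) ≤ 1 / 1.01 := by
        rw [Real.exp_neg, ← one_div]
        apply one_div_le_one_div_of_le (by norm_num)
        have := Real.add_one_le_exp (0.01 : ℝ)
        linarith
      rw [h4]
      calc Real.exp 1 * Real.exp (-0.01) ≤ 2.7182818286 * (1 / 1.01) := by
            apply mul_le_mul h3.le h5 (Real.exp_pos _).le (by norm_num)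
        _ ≤ 2.7 := by norm_num
    linarith
  obtain ⟨m, hm⟩ : ∃ m, m = Real.log l := ⟨_, rfl⟩
  rw [← hm] at hll
  have hm0 : 0 < m := by linarith
  obtain ⟨x, hx⟩ : ∃ x, x = K * (N : ℝ) ^ 2 * l ^ 2 * m ^ 4 := ⟨_, rfl⟩
  have hlate' : ∀ a ∈ S, (lateS a x).Nonempty := by
    intro a ha
    have := hlate a ha
    rw [← hl, ← hm, ← hx] at this
    exact this
  have hm4 : 0.96 ≤ m ^ 4 := by
    calc (0.96 : ℝ) ≤ 0.99 ^ 4 := by norm_num
      _ ≤ m ^ 4 := pow_le_pow_left₀ (by norm_num) hll 4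
  have hl2 : 7.29 ≤ l ^ 2 := by nlinarith
  have hxN : 4 * (N : ℝ) ^ 2 ≤ x := by
    rw [hx]
    have e1 : 4 ≤ l ^ 2 * m ^ 4 := by nlinarith
    have e2 : (N : ℝ) ^ 2 ≤ K * (N : ℝ) ^ 2 := le_mul_of_one_le_left (by positivity) hK1
    calc 4 * (N : ℝ) ^ 2 ≤ (l ^ 2 * m ^ 4) * (K * (N : ℝ) ^ 2) := by
          apply mul_le_mul e1 e2 (by positivity) (by positivity)
      _ = _ := by ring
  have hx8 : 8 ≤ x := by nlinarith
  have hx0 : 0 < x := by linarith
  have hsx : 2 * (N : ℝ) ≤ Real.sqrt x := by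
    apply Real.le_sqrt_of_sq_le
    nlinarith
  have hlx1 : 1 ≤ Real.log x := log_one_le (by linarith)
  have hlx0 : 0 < Real.log x := by linarith
  -- logarithm of `x`
  have hlogx : Real.log x ≤ c1 * l := by
    rw [hx, Real.log_mul (by positivity) (by positivity), Real.log_mul (by positivity) (by positivity),
      Real.log_mul (by positivity) (by positivity), Real.log_pow, Real.log_pow, Real.log_pow, ← hl, ← hm]
    have e1 : Real.log K ≤ 2 * U * m := by
      have := Real.log_le_log (by linarith) hKU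
      rw [Real.log_pow, ← hm] at this
      push_cast at this
      exact this
    have e2 : m ≤ l := by
      rw [hm]
      exact (Real.log_le_sub_one_of_pos hl0).trans (by linarith)
    have e3 : Real.log m ≤ m := (Real.log_le_sub_one_of_pos hm0).trans (by linarith)
    rw [hc1]
    push_cast
    have e4 : (0 : ℝ) ≤ U := Nat.cast_nonneg _
    have e5 : 2 * (U : ℝ) * m ≤ 2 * U * l := mul_le_mul_of_nonneg_left e2 (by positivity)
    nlinarith
  have hllx : Real.log (Real.log x) ≤ c2 * (1.02 * m) := by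
    have e1 := Real.log_le_log hlx0 hlogx
    rw [Real.log_mul (by linarith) (by linarith), ← hm] at e1
    rw [hc2]
    have e2 : 0 ≤ Real.log c1 := Real.log_nonneg (by linarith)
    have e3 : 1 ≤ 1.02 * m := by linarith
    nlinarith
  have hllx0 : 0 ≤ Real.log (Real.log x) := Real.log_nonneg hlx1
  have hlNx : l ≤ Real.log x := by
    rw [hl]
    apply Real.log_le_log hN0
    nlinarith
  -- choose late classes
  choose! f hf using hlate'
  obtain ⟨g, hg⟩ : ∃ g : ℕ → ℕ, g = fun d => if d ∈ S then f d else 1 := ⟨_, rfl⟩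
  have hgc : ∀ d, 1 ≤ d → (g d).Coprime d := by
    intro d _
    rw [hg]
    simp only
    split_ifs with hd
    · have := hf d hd
      unfold lateS at this
      rw [mem_filter] at this
      exact this.2.1
    · exact Nat.coprime_one_left d
  have h0 := h0' x (by linarith) (2 * N) (by positivity) hsx (fun _ => x) (fun _ => ⟨by linarith, le_rfl⟩) g hgc
  have h2 : (S.card : ℝ) * ((x / (2 * Real.log x)) / (2 * N)) ≤
      C0 * (x / Real.log x ^ ((U : ℝ) + 1) + 2 * N * Real.sqrt x * Real.log (Real.log x) ^ 2) := by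
    have e0 : 0 ≤ x / Real.log x ^ ((U : ℝ) + 1) + 2 * N * Real.sqrt x * Real.log (Real.log x) ^ 2 := by positivity
    have e1 : C0' * (x / Real.log x ^ ((U : ℝ) + 1) + 2 * N * Real.sqrt x * Real.log (Real.log x) ^ 2) ≤
        C0 * (x / Real.log x ^ ((U : ℝ) + 1) + 2 * N * Real.sqrt x * Real.log (Real.log x) ^ 2) := by
      apply mul_le_mul_of_nonneg_right _ e0
      rw [hC0d]
      exact le_max_left _ _
    refine le_trans ?_ (h0.trans e1)
    rw [← nsmul_eq_mul, ← sum_const]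
    have hfl : ⌊(2 * (N : ℝ))⌋₊ = 2 * N := by
      have : (2 * (N : ℝ)) = ((2 * N : ℕ) : ℝ) := by push_cast; rfl
      rw [this, Nat.floor_natCast]
    rw [hfl]
    refine le_trans ?_ (sum_le_sum_of_subset_of_nonneg (s := S) (t := Icc 1 (2 * N)) ?_ ?_)
    · apply sum_le_sum
      intro a ha
      have haS := mem_Ioc.1 (hS ha)
      have hga : g a = f a := by rw [hg]; simp only; rw [if_pos ha]
      have hfa := hf a ha
      unfold lateS at hfa
      rw [mem_filter, mem_range] at hfa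
      have hzero : Pool.Agent.Results.MP_00e23e_nt.LogLogLoss.primesAP x a (g a) = 0 := by
        unfold Pool.Agent.Results.MP_00e23e_nt.LogLogLoss.primesAP
        rw [card_eq_zero, filter_eq_empty_iff]
        intro p hp
        rw [mem_Icc] at hp
        rintro ⟨hp1, hp2⟩
        apply hfa.2.2 p hp1 ((Nat.le_floor_iff hx0.le).1 hp.2)
        rw [hga] at hp2
        have h6 : p % a = f a % a := hp2
        rw [h6, Nat.mod_eq_of_lt hfa.1]
      unfold Pool.Agent.Results.MP_00e23e_nt.LogLogLoss.E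
      rw [hzero, Nat.cast_zero, zero_sub, abs_neg]
      refine le_trans ?_ (le_abs_self _)
      have hφ0 : (0 : ℝ) < Nat.totient a := by exact_mod_cast Nat.totient_pos.2 (by omega)
      have hφN : (Nat.totient a : ℝ) ≤ 2 * N := by
        exact_mod_cast (Nat.totient_le a).trans haS.2
      have hli := li_ge x hx8
      calc (x / (2 * Real.log x)) / (2 * N) ≤ (x / (2 * Real.log x)) / Nat.totient a := by
            apply div_le_div_of_nonneg_left (by positivity) hφ0 hφN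
        _ ≤ _ := div_le_div_of_nonneg_right hli hφ0.le
    · intro a ha
      have haS := mem_Ioc.1 (hS ha)
      rw [mem_Icc]
      omega
    · intro _ _ _
      exact abs_nonneg _
  -- the conclusion
  obtain ⟨s, hs⟩ : ∃ s, s = Real.sqrt K := ⟨_, rfl⟩
  have hs1 : 1 ≤ s := by rw [hs]; exact Real.one_le_sqrt.2 hK1
  have hs0 : 0 < s := by linarith
  have hsqx : Real.sqrt x = s * (N * l * m ^ 2) := by
    rw [hs, hx]
    have : K * (N : ℝ) ^ 2 * l ^ 2 * m ^ 4 = K * (N * l * m ^ 2) ^ 2 := by ring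
    rw [this, Real.sqrt_mul (by linarith), Real.sqrt_sq (by positivity)]
  have hxs : x = Real.sqrt x * Real.sqrt x := (Real.mul_self_sqrt hx0.le).symm
  have hUpow : Real.log x ^ ((U : ℝ) + 1) = Real.log x ^ U * Real.log x := by
    rw [Real.rpow_add_one hlx0.ne', Real.rpow_natCast]
  rw [hUpow] at h2
  rw [← hl, ← hs]
  exact grh_alg hN0 hx0 hlx0 (by positivity) (pow_le_pow_left₀ hl0.le hlNx U) hC0 hsqx hxs hs0 hl0 hm0
    (by linarith) hlogx hllx0 hllx h2

/-- every constant `K` -/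
theorem grh (U : ℕ) : ∃ C : ℝ, 0 ≤ C ∧ ∀ N : ℕ, 16 ≤ N → ∀ K : ℝ, 1 ≤ K →
    ∀ S : Finset ℕ, S ⊆ Ioc N (2 * N) →
      (∀ a ∈ S, (lateS a (K * (N : ℝ) ^ 2 * Real.log N ^ 2 * Real.log (Real.log N) ^ 4)).Nonempty) →
      (S.card : ℝ) ≤ C * (N * (1 / Real.sqrt K + 1 / Real.log N ^ U)) := by
  obtain ⟨C, hC, h⟩ := grh_small U
  refine ⟨2 * C, by positivity, fun N hN K hK S hS hlate => ?_⟩
  have hNr : (16 : ℝ) ≤ N := by exact_mod_cast hN
  have hlog : 1 ≤ Real.log N := log_one_le (by linarith)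
  have hlU : 1 ≤ Real.log N ^ U := one_le_pow₀ hlog
  have n1 : 0 ≤ 1 / Real.sqrt K := by positivity
  have n2 : 0 ≤ 1 / Real.log N ^ U := by positivity
  have hN0 : (0 : ℝ) < N := by linarith
  rcases le_or_gt K (Real.log N ^ (2 * U)) with hc | hc
  · refine (h N hN K hK hc S hS hlate).trans ?_
    apply mul_le_mul_of_nonneg_right (by linarith) (by positivity)
  · have h1 := h N hN (Real.log N ^ (2 * U)) (one_le_pow₀ hlog) le_rfl S hS (fun a ha => by
      refine (hlate a ha).mono (lateS_anti a ?_)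
      have e1 : 0 ≤ (N : ℝ) ^ 2 * Real.log N ^ 2 * Real.log (Real.log N) ^ 4 := by positivity
      calc Real.log N ^ (2 * U) * (N : ℝ) ^ 2 * Real.log N ^ 2 * Real.log (Real.log N) ^ 4
          = Real.log N ^ (2 * U) * ((N : ℝ) ^ 2 * Real.log N ^ 2 * Real.log (Real.log N) ^ 4) := by ring
        _ ≤ K * ((N : ℝ) ^ 2 * Real.log N ^ 2 * Real.log (Real.log N) ^ 4) := mul_le_mul_of_nonneg_right hc.le e1
        _ = _ := by ring)
    have e2 : Real.sqrt (Real.log N ^ (2 * U)) = Real.log N ^ U := by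
      rw [mul_comm, pow_mul, Real.sqrt_sq (by positivity)]
    rw [e2] at h1
    refine h1.trans ?_
    have e3 : 0 ≤ C * (N * (1 / Real.sqrt K)) := by positivity
    calc C * (N * (1 / Real.log N ^ U + 1 / Real.log N ^ U)) = 2 * C * (N * (1 / Real.log N ^ U)) := by ring
      _ ≤ 2 * C * (N * (1 / Real.sqrt K + 1 / Real.log N ^ U)) := by
          apply mul_le_mul_of_nonneg_left _ (by positivity)
          apply mul_le_mul_of_nonneg_left _ hN0.le
          linarith

end Pool.Agent.J4H72.LP
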