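import Pool.Agent.J4H72.LP.Tail2
import Pool.Agent.J4H72.LP.BetaL
import Pool.Agent.Helper923.PNT

set_option autoImplicit false

/-! The least prime as a function; the trivial lower bound for the moments. -/

namespace Pool.Agent.J4H72.LP

open Finset

/-- the least prime `p ≡ b (mod a)` -/
noncomputable def lp (a b : ℕ) : ℕ := sInf {p : ℕ | p.Prime ∧ p ≡ b [MOD a]}

/-- the reduced classes -/
def red (a : ℕ) : Finset ℕ := (range a).filter (fun b => Nat.Coprime b a)

lemma red_card (a : ℕ) : (red a).card = Nat.totient a := by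
  rw [Nat.totient_eq_card_coprime]
  unfold red
  congr 1
  ext b
  simp only [mem_filter, mem_range]
  rw [Nat.coprime_comm]

lemma lp_spec (a b : ℕ) (ha : a ≠ 0) (hb : Nat.Coprime b a) : (lp a b).Prime ∧ lp a b ≡ b [MOD a] := by
  have h := (Nat.infinite_setOfPred_prime_and_modEq ha hb).nonempty
  have h2 : ({p : ℕ | p.Prime ∧ p ≡ b [MOD a]} : Set ℕ).Nonempty := h
  exact Nat.sInf_mem h2

lemma lp_le (a b p : ℕ) (hp : p.Prime) (h : p ≡ b [MOD a]) : lp a b ≤ p :=
  Nat.sInf_le (show p ∈ {p : ℕ | p.Prime ∧ p ≡ b [MOD a]} from ⟨hp, h⟩)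

lemma lt_lp_iff (a b : ℕ) (x : ℝ) (hb : b < a) (hc : Nat.Coprime b a) :
    x < (lp a b : ℝ) ↔ ∀ p : ℕ, p.Prime → (p : ℝ) ≤ x → ¬ p % a = b := by
  constructor
  · intro h p hp hpx he
    have h1 : p ≡ b [MOD a] := by
      show p % a = b % a
      rw [he, Nat.mod_eq_of_lt hb]
    have h2 := lp_le a b p hp h1
    have h3 : ((lp a b : ℕ) : ℝ) ≤ p := by exact_mod_cast h2
    linarith
  · intro h
    by_contra hcon
    push Not at hcon
    obtain ⟨h1, h2⟩ := lp_spec a b (by omega) hc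
    refine h _ h1 hcon ?_
    have h3 : lp a b % a = b % a := h2
    rw [h3, Nat.mod_eq_of_lt hb]

lemma filter_red (a : ℕ) (x : ℝ) : (red a).filter (fun b => x < (lp a b : ℝ)) = lateS a x := by
  classical
  ext b
  unfold red lateS
  rw [mem_filter, mem_filter, mem_filter, mem_range]
  constructor
  · rintro ⟨⟨h1, h2⟩, h3⟩
    exact ⟨h1, h2, (lt_lp_iff a b x h1 h2).1 h3⟩
  · rintro ⟨h1, h2, h3⟩
    exact ⟨⟨h1, h2⟩, (lt_lp_iff a b x h1 h2).2 h3⟩

lemma lp_pos (a b : ℕ) (hb : b ∈ red a) : 2 ≤ lp a b := by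
  unfold red at hb
  rw [mem_filter, mem_range] at hb
  exact (lp_spec a b (by omega) hb.2).1.two_le

/-- at most `π(x)` classes have a least prime `≤ x` -/
lemma late_ge (a : ℕ) (x : ℝ) :
    (Nat.totient a : ℝ) - Nat.primeCounting ⌊x⌋₊ ≤ ((lateS a x).card : ℝ) := by
  classical
  have h1 : ((red a).filter (fun b => ¬ x < (lp a b : ℝ))).card ≤ Nat.primeCounting ⌊x⌋₊ := by
    rw [Nat.primeCounting, Nat.primeCounting', Nat.count_eq_card_filter_range]
    apply card_le_card_of_injOn (fun b => lp a b)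
    · intro b hb
      rw [mem_coe, mem_filter] at hb
      unfold red at hb
      rw [mem_filter, mem_range] at hb
      rw [mem_coe, mem_filter, mem_range]
      refine ⟨?_, (lp_spec a b (by omega) hb.1.2).1⟩
      have h2 : ((lp a b : ℕ) : ℝ) ≤ x := not_lt.1 hb.2
      have h3 := Nat.le_floor h2
      show lp a b < ⌊x⌋₊ + 1
      omega
    · intro b hb b' hb' he
      rw [mem_coe, mem_filter] at hb hb'
      unfold red at hb hb'
      rw [mem_filter, mem_range] at hb hb'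
      have h2 : lp a b % a = b % a := (lp_spec a b (by omega) hb.1.2).2
      have h3 : lp a b' % a = b' % a := (lp_spec a b' (by omega) hb'.1.2).2
      have he' : lp a b = lp a b' := he
      rw [Nat.mod_eq_of_lt hb.1.1] at h2
      rw [Nat.mod_eq_of_lt hb'.1.1] at h3
      rw [← h2, ← h3, he']
  have h4 := card_filter_add_card_filter_not (s := red a) (fun b => x < (lp a b : ℝ))
  rw [filter_red, red_card] at h4
  have h5 : (Nat.totient a : ℝ) ≤ (lateS a x).card + Nat.primeCounting ⌊x⌋₊ := by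
    have : Nat.totient a ≤ (lateS a x).card + Nat.primeCounting ⌊x⌋₊ := by omega
    exact_mod_cast this
  linarith

/-- `π(x) ≤ δ φ(a) + (1 + δ) x / log a` -/
lemma pi_le (δ : ℝ) (hδ : 0 < δ) (hδ1 : δ ≤ 1 / 2) : ∃ a₀ : ℕ, ∀ a : ℕ, a₀ ≤ a → ∀ x : ℝ, 0 < x →
    (Nat.primeCounting ⌊x⌋₊ : ℝ) ≤ δ * Nat.totient a + (1 + δ) * x / Real.log a := by
  have h1 := Pool.Agent.Helper923.PNT.pi_tendsto.eventually (gt_mem_nhds (show (1 : ℝ) < 1 + δ / 4 by linarith))
  obtain ⟨x₀, hx₀⟩ := Filter.eventually_atTop.1 h1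
  -- `a ^ (1 - δ / 2) ≤ δ φ(a)`
  have h2 : (fun x : ℝ => Real.log x) =o[Filter.atTop] (fun x : ℝ => x ^ (δ / 2)) :=
    isLittleO_log_rpow_atTop (by positivity)
  have h3 := (h2.bound (show (0 : ℝ) < δ / 4 by positivity))
  have h4 : ∀ᶠ a : ℕ in Filter.atTop, Real.log a ≤ δ / 4 * (a : ℝ) ^ (δ / 2) := by
    filter_upwards [tendsto_natCast_atTop_atTop (R := ℝ) |>.eventually h3,
      Filter.eventually_ge_atTop 1] with a ha ha1
    rw [Real.norm_of_nonneg (Real.log_natCast_nonneg _), Real.norm_of_nonneg (by positivity)] at ha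
    exact ha
  obtain ⟨a₁, ha₁⟩ := Filter.eventually_atTop.1 h4
  have h5 : Filter.Tendsto (fun a : ℕ => (a : ℝ) ^ (1 - δ / 2)) Filter.atTop Filter.atTop :=
    (tendsto_rpow_atTop (by linarith)).comp tendsto_natCast_atTop_atTop
  obtain ⟨a₂, ha₂⟩ := Filter.eventually_atTop.1 (h5.eventually (Filter.eventually_ge_atTop (max x₀ 2)))
  refine ⟨max (max a₁ a₂) 3, fun a ha x hx => ?_⟩
  have ha1 : a₁ ≤ a := ((le_max_left _ _).trans (le_max_left _ _)).trans ha
  have ha2 : a₂ ≤ a := ((le_max_right _ _).trans (le_max_left _ _)).trans ha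
  have ha3 : 3 ≤ a := (le_max_right _ _).trans ha
  have har : (3 : ℝ) ≤ a := by exact_mod_cast ha3
  have ha0 : (0 : ℝ) < a := by linarith
  have hlog : 1 ≤ Real.log a := by
    rw [Real.le_log_iff_exp_le ha0]
    have := Real.exp_one_lt_d9
    linarith
  have hφ : (0 : ℝ) < Nat.totient a := by exact_mod_cast Nat.totient_pos.2 (by omega)
  rcases le_or_gt x ((a : ℝ) ^ (1 - δ / 2)) with hc | hc
  · have e1 : (Nat.primeCounting ⌊x⌋₊ : ℝ) ≤ x := by
      have e2 : Nat.primeCounting ⌊x⌋₊ ≤ ⌊x⌋₊ := by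
        rw [Nat.primeCounting, Nat.primeCounting', Nat.count_eq_card_filter_range]
        have e3 : (range (⌊x⌋₊ + 1)).filter Nat.Prime ⊆ Icc 1 ⌊x⌋₊ := by
          intro p hp
          rw [mem_filter, mem_range] at hp
          rw [mem_Icc]
          exact ⟨hp.2.one_lt.le, by omega⟩
        have e4 := card_le_card e3
        rw [Nat.card_Icc, Nat.add_sub_cancel] at e4
        exact e4
      have e3 : ((Nat.primeCounting ⌊x⌋₊ : ℕ) : ℝ) ≤ ⌊x⌋₊ := by exact_mod_cast e2
      exact e3.trans (Nat.floor_le hx.le)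
    have e2 : (a : ℝ) ^ (1 - δ / 2) ≤ δ * Nat.totient a := by
      have f1 := ha₁ a ha1
      have f2 := Pool.Agent.N837.LP.div_totient_le_log a (by omega)
      rw [div_le_iff₀ hφ] at f2
      have f3 : (a : ℝ) = (a : ℝ) ^ (1 - δ / 2) * (a : ℝ) ^ (δ / 2) := by
        rw [← Real.rpow_add ha0]
        norm_num
      have f4 : (0 : ℝ) < (a : ℝ) ^ (δ / 2) := by positivity
      have f5 : (a : ℝ) ≤ δ * Nat.totient a * (a : ℝ) ^ (δ / 2) := by
        calc (a : ℝ) ≤ 2 * (1 + Real.log a) * Nat.totient a := f2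
          _ ≤ (4 * Real.log a) * Nat.totient a := by
              apply mul_le_mul_of_nonneg_right _ hφ.le
              linarith
          _ ≤ (4 * (δ / 4 * (a : ℝ) ^ (δ / 2))) * Nat.totient a := by
              apply mul_le_mul_of_nonneg_right _ hφ.le
              linarith
          _ = _ := by ring
      rw [f3] at f5
      have f6 : (a : ℝ) ^ (1 - δ / 2) * (a : ℝ) ^ (δ / 2) ≤ (δ * Nat.totient a) * (a : ℝ) ^ (δ / 2) := by
        have f7 : (a : ℝ) = (a : ℝ) ^ (1 - δ / 2) * (a : ℝ) ^ (δ / 2) := f3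
        calc (a : ℝ) ^ (1 - δ / 2) * (a : ℝ) ^ (δ / 2) = a := f7.symm
          _ ≤ _ := by
            have := f2.trans (show 2 * (1 + Real.log a) * Nat.totient a ≤ (δ * Nat.totient a) * (a : ℝ) ^ (δ / 2) by
              calc 2 * (1 + Real.log a) * Nat.totient a ≤ (4 * Real.log a) * Nat.totient a := by
                    apply mul_le_mul_of_nonneg_right _ hφ.le
                    linarith
                _ ≤ (4 * (δ / 4 * (a : ℝ) ^ (δ / 2))) * Nat.totient a := by
                    apply mul_le_mul_of_nonneg_right _ hφ.le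
                    linarith
                _ = _ := by ring)
            exact this
      exact le_of_mul_le_mul_right f6 f4
    have e3 : 0 ≤ (1 + δ) * x / Real.log a := by positivity
    linarith
  · have e1 : max x₀ 2 ≤ (a : ℝ) ^ (1 - δ / 2) := ha₂ a ha2
    have e2 : x₀ ≤ x := (le_max_left _ _).trans (e1.trans hc.le)
    have e2' : 2 ≤ x := (le_max_right _ _).trans (e1.trans hc.le)
    have e3 := hx₀ x e2
    have e4 : (1 - δ / 2) * Real.log a ≤ Real.log x := by
      rw [← Real.log_rpow ha0]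
      exact Real.log_le_log (by positivity) hc.le
    have e5 : 0 < Real.log x := Real.log_pos (by linarith)
    have e6 : (Nat.primeCounting ⌊x⌋₊ : ℝ) ≤ (1 + δ / 4) * x / Real.log x := by
      have e7 : (Nat.primeCounting ⌊x⌋₊ : ℝ) * Real.log x / x < 1 + δ / 4 := e3
      rw [div_lt_iff₀ hx] at e7
      rw [le_div_iff₀ e5]
      exact e7.le
    have e8 : (1 + δ / 4) * x / Real.log x ≤ (1 + δ) * x / Real.log a := by
      rw [div_le_div_iff₀ e5 (by linarith)]
      have e9 : (1 + δ / 4) * Real.log a ≤ (1 + δ) * ((1 - δ / 2) * Real.log a) := by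
        have f8 : (1 + δ / 4) ≤ (1 + δ) * (1 - δ / 2) := by nlinarith
        nlinarith
      calc (1 + δ / 4) * x * Real.log a = x * ((1 + δ / 4) * Real.log a) := by ring
        _ ≤ x * ((1 + δ) * ((1 - δ / 2) * Real.log a)) := by gcongr
        _ ≤ x * ((1 + δ) * Real.log x) := by gcongr
        _ = _ := by ring
    have e10 : 0 ≤ δ * Nat.totient a := by positivity
    linarith

/-- the lower bound for the moments, for all large moduli -/
theorem lower (ε : ℝ) (hε : 0 < ε) : ∃ a₀ : ℕ, ∀ a : ℕ, a₀ ≤ a → ∀ κ : ℝ, 0 < κ → κ ≤ 1 →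
    (1 / (1 + κ) - ε) * (Nat.totient a * (Nat.totient a * Real.log a) ^ κ) ≤ ∑ b ∈ red a, (lp a b : ℝ) ^ κ := by
  classical
  obtain ⟨δ, hδ⟩ : ∃ δ, δ = min (ε / 5) (1 / 10) := ⟨_, rfl⟩
  have hδ0 : 0 < δ := by rw [hδ]; positivity
  have hδε : 5 * δ ≤ ε := by
    have : δ ≤ ε / 5 := by rw [hδ]; exact min_le_left _ _
    linarith
  have hδ1 : δ ≤ 1 / 10 := by rw [hδ]; exact min_le_right _ _
  obtain ⟨a₁, h1⟩ := pi_le δ hδ0 (by linarith)
  refine ⟨max a₁ 3, fun a ha κ hκ hκ1 => ?_⟩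
  have ha1 : a₁ ≤ a := (le_max_left _ _).trans ha
  have ha3 : 3 ≤ a := (le_max_right _ _).trans ha
  have har : (3 : ℝ) ≤ a := by exact_mod_cast ha3
  have ha0 : (0 : ℝ) < a := by linarith
  have hlog : 0 < Real.log a := Real.log_pos (by linarith)
  have hφ : (0 : ℝ) < Nat.totient a := by exact_mod_cast Nat.totient_pos.2 (by omega)
  obtain ⟨φ, hφd⟩ : ∃ φ : ℝ, φ = Nat.totient a := ⟨_, rfl⟩
  obtain ⟨L, hLd⟩ : ∃ L : ℝ, L = Real.log a := ⟨_, rfl⟩
  rw [← hφd, ← hLd]
  rw [← hφd] at hφ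
  rw [← hLd] at hlog
  have h2 := moment_ge κ hκ (red a) (fun b => (lp a b : ℝ)) (fun b => Nat.cast_nonneg _)
    ((1 - δ) * φ) ((1 + δ) / L) ((1 - 3 * δ) * (φ * L)) (by
      have : 0 < 1 - 3 * δ := by linarith
      positivity) (by positivity) (by
      have e1 : (1 - δ) * φ - (1 + δ) / L * ((1 - 3 * δ) * (φ * L)) = φ * (δ + 3 * δ ^ 2) := by
        field_simp
        ring
      rw [e1]
      positivity) (by
      intro x hx hx2
      have h3 := h1 a ha1 x hx
      have h4 := late_ge a x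
      rw [filter_red, ← hφd] at *
      rw [← hLd] at h3
      have h5 : (1 + δ) / L * x = (1 + δ) * x / L := by ring
      rw [h5]
      linarith)
  refine le_trans ?_ h2
  have hs : 0 < φ * L := by positivity
  have ht : 0 < 1 - 3 * δ := by linarith
  rw [Real.mul_rpow ht.le hs.le, Real.rpow_add_one (by positivity), Real.mul_rpow ht.le hs.le]
  obtain ⟨T, hT⟩ : ∃ T, T = (1 - 3 * δ) ^ κ := ⟨_, rfl⟩
  obtain ⟨Z, hZ⟩ : ∃ Z, Z = (φ * L) ^ κ := ⟨_, rfl⟩
  rw [← hT, ← hZ]
  have hT1 : 1 - 3 * δ ≤ T := by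
    rw [hT]
    calc 1 - 3 * δ = (1 - 3 * δ) ^ (1 : ℝ) := (Real.rpow_one _).symm
      _ ≤ (1 - 3 * δ) ^ κ := Real.rpow_le_rpow_of_exponent_ge ht (by linarith) hκ1
  have hT2 : T ≤ 1 := by
    rw [hT]
    exact Real.rpow_le_one ht.le (by linarith) hκ.le
  have hZ0 : 0 < Z := by rw [hZ]; positivity
  have e1 : (1 - δ) * φ * (T * Z) - (1 + δ) / L * (κ / (κ + 1)) * (T * Z * ((1 - 3 * δ) * (φ * L))) =
      φ * Z * (T * ((1 - δ) - (1 + δ) * (1 - 3 * δ) * (κ / (κ + 1)))) := by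
    field_simp
  rw [e1]
  have e2 : 1 / (1 + κ) - δ ≤ (1 - δ) - (1 + δ) * (1 - 3 * δ) * (κ / (κ + 1)) := by
    have f1 : 1 / (1 + κ) = 1 - κ / (κ + 1) := by
      field_simp
      ring
    have f2 : 0 ≤ κ / (κ + 1) := by positivity
    have f3 : (1 + δ) * (1 - 3 * δ) ≤ 1 := by nlinarith
    rw [f1]
    nlinarith
  have e3 : 1 / (1 + κ) ≤ 1 := by
    rw [div_le_one (by linarith)]
    linarith
  have e4 : 1 / 2 ≤ 1 / (1 + κ) := by
    apply div_le_div_of_nonneg_left (by norm_num) (by linarith) (by linarith)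
  have e5 : 1 / (1 + κ) - ε ≤ T * ((1 - δ) - (1 + δ) * (1 - 3 * δ) * (κ / (κ + 1))) := by
    have f1 : 0 ≤ 1 / (1 + κ) - δ := by linarith
    calc 1 / (1 + κ) - ε ≤ (1 - 3 * δ) * (1 / (1 + κ) - δ) := by nlinarith
      _ ≤ T * (1 / (1 + κ) - δ) := mul_le_mul_of_nonneg_right hT1 f1
      _ ≤ _ := mul_le_mul_of_nonneg_left e2 (by linarith)
  calc (1 / (1 + κ) - ε) * (φ * Z) ≤ (T * ((1 - δ) - (1 + δ) * (1 - 3 * δ) * (κ / (κ + 1)))) * (φ * Z) :=
        mul_le_mul_of_nonneg_right e5 (by positivity)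
    _ = _ := by ring

end Pool.Agent.J4H72.LP
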