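import Pool.Agent.J4H72.LP.Mean
import Pool.Agent.R460.GQ.Vr
import Pool.Agent.R460.GQ.Err
import Pool.Agent.R501.LP1

set_option autoImplicit false

/-! The property `LpG` for almost all moduli in residue classes. -/

namespace Pool.Agent.J4H72.LP

open Finset
open Pool.Agent.R501.LP (LpG0 LpG lpg_iff lpg_of_var)
open Pool.Agent.R460.GQ (badV)

/-- `LpG` off the bad moduli for the variance -/
theorem lpg_off (ε : ℝ) (hε : 0 < ε) (hε1 : ε ≤ 1) (K W : ℕ) : ∃ N₀ : ℕ, ∀ N : ℕ, N₀ ≤ N → ∀ m b a : ℕ,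
    1 ≤ a → a ≤ N → a % m = b % m → (N : ℝ) ≤ a * Real.log N ^ W → a ∉ badV (max K W) (ε / 4) N m b →
    LpG ε K a := by
  classical
  obtain ⟨Q₀, h1⟩ := lpg_of_var K ε hε hε1
  obtain ⟨n1, hn1⟩ := ev_pow 1 (2 * W)
  refine ⟨max n1 ((Q₀ + 3) ^ 2 + 3), fun N hN m b a ha1 haN hab haW hbad => ?_⟩
  have hN1 := hn1 N ((le_max_left _ _).trans hN)
  have hN3 : (Q₀ + 3) ^ 2 + 3 ≤ N := (le_max_right _ _).trans hN
  have hNr : (3 : ℝ) ≤ N := by
    have : 3 ≤ N := by omega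
    exact_mod_cast this
  have hlogN : 1 ≤ Real.log N := by
    rw [Real.le_log_iff_exp_le (by linarith)]
    have := Real.exp_one_lt_d9
    linarith
  rw [one_mul] at hN1
  have ha0 : (1 : ℝ) ≤ a := by exact_mod_cast ha1
  have haQ : Q₀ + 3 ≤ a := by
    by_contra hcon
    push Not at hcon
    have e1 : (N : ℝ) ^ 2 ≤ (a : ℝ) ^ 2 * N := by
      calc (N : ℝ) ^ 2 ≤ (a * Real.log N ^ W) ^ 2 := pow_le_pow_left₀ (by linarith) haW 2
        _ = (a : ℝ) ^ 2 * Real.log N ^ (2 * W) := by ring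
        _ ≤ (a : ℝ) ^ 2 * N := mul_le_mul_of_nonneg_left hN1.le (by positivity)
    have e2 : (N : ℝ) ≤ (a : ℝ) ^ 2 := by
      have : (N : ℝ) * N ≤ (a : ℝ) ^ 2 * N := by rw [← sq]; exact e1
      exact le_of_mul_le_mul_right this (by linarith)
    have e3 : N ≤ a ^ 2 := by exact_mod_cast e2
    have e4 : a ^ 2 ≤ (Q₀ + 3) ^ 2 := Nat.pow_le_pow_left hcon.le 2
    omega
  have har : (3 : ℝ) ≤ a := by
    have : 3 ≤ a := by omega
    exact_mod_cast this
  have hloga : 1 ≤ Real.log a := by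
    rw [Real.le_log_iff_exp_le (by linarith)]
    have := Real.exp_one_lt_d9
    linarith
  have hlogaN : Real.log a ≤ Real.log N := Real.log_le_log (by linarith) (by exact_mod_cast haN)
  rw [← lpg_iff ε K a (by omega)]
  apply h1 a (by omega)
  intro x hx1 hx2
  by_contra hcon
  push Not at hcon
  apply hbad
  unfold badV
  rw [mem_filter, mem_Icc]
  refine ⟨⟨ha1, haN⟩, hab, ?_, x, hx1, ?_, ?_⟩
  · refine haW.trans (mul_le_mul_of_nonneg_left ?_ (by linarith))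
    exact pow_le_pow_right₀ hlogN (le_max_right _ _)
  · refine hx2.trans (mul_le_mul_of_nonneg_left ?_ (by linarith))
    exact (pow_le_pow_left₀ (by linarith) hlogaN K).trans (pow_le_pow_right₀ hlogN (le_max_left _ _))
  · exact hcon

/-- `LpG` for almost all moduli -/
theorem lpg_most (ε : ℝ) (hε : 0 < ε) (hε1 : ε ≤ 1) (U K W : ℕ) : ∃ N₀ : ℕ, ∀ N : ℕ, N₀ ≤ N →
    ∃ S : Finset ℕ, S ⊆ Icc 1 N ∧ (S.card : ℝ) * Real.log N ^ U ≤ N ∧
    ∀ a ∈ Icc 1 N, a ∉ S → (N : ℝ) ≤ a * Real.log N ^ W → LpG ε K a := by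
  classical
  obtain ⟨n1, h1⟩ := lpg_off ε hε hε1 K W
  obtain ⟨n2, h2⟩ := Pool.Agent.R460.GQ.var_main Pool.Agent.R460.GQ.errQ_all (1 / 3) (ε / 4) (by norm_num)
    le_rfl (by linarith) (by linarith) U (max K W) 0
  refine ⟨max (max n1 n2) 3, fun N hN => ⟨badV (max K W) (ε / 4) N 1 0, ?_, ?_, ?_⟩⟩
  · unfold badV
    exact filter_subset _ _
  · have hN3 : 3 ≤ N := (le_max_right _ _).trans hN
    have hNr : (3 : ℝ) ≤ N := by exact_mod_cast hN3
    have hlog : 0 < Real.log N := Real.log_pos (by linarith)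
    have h3 := h2 N (((le_max_right _ _).trans (le_max_left _ _)).trans hN) 1 le_rfl (by
      rw [Nat.cast_one]
      exact Real.one_le_rpow (by linarith) (by norm_num)) 0 (by simp)
    rw [Nat.cast_one, one_mul, le_div_iff₀ (by positivity)] at h3
    exact h3
  · intro a ha haS haW
    rw [mem_Icc] at ha
    exact h1 N (((le_max_left _ _).trans (le_max_left _ _)).trans hN) 1 0 a ha.1 ha.2 (by simp [Nat.mod_one]) haW haS

end Pool.Agent.J4H72.LP
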