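import Pool.Agent.J4H72.LP.Low

set_option autoImplicit false

/-! The mean value of the least primes in the classes modulo almost all moduli. -/

namespace Pool.Agent.J4H72.LP

open Finset

lemma harm_le (X : ℕ) : ∑ n ∈ Ico 1 X, (1 : ℝ) / n ≤ 1 + Real.log X := by
  have h1 := harmonic_le_one_add_log X
  have h2 : ((harmonic X : ℚ) : ℝ) = ∑ n ∈ Icc 1 X, (1 : ℝ) / n := by
    rw [harmonic_eq_sum_Icc]
    push_cast
    apply sum_congr rfl
    intro n _
    rw [one_div]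
  rw [h2] at h1
  refine le_trans ?_ h1
  apply sum_le_sum_of_subset_of_nonneg
  · intro n hn
    rw [mem_Ico] at hn
    rw [mem_Icc]
    omega
  · intro n _ _
    positivity

/-- the mean value from the tail -/
lemma sum_lp_le (a : ℕ) (W : ℝ) (hW : 1 ≤ W)
    (h : ∀ x : ℝ, 0 < x → ((lateS a x).card : ℝ) * x ≤ W) :
    ∑ b ∈ red a, (lp a b : ℝ) ≤ Nat.totient a + W * (1 + Real.log (W + 1)) := by
  classical
  obtain ⟨X, hX⟩ : ∃ X, X = ⌊W⌋₊ + 1 := ⟨_, rfl⟩
  have hXW : W < X := by rw [hX]; push_cast; exact Nat.lt_floor_add_one W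
  have hXW2 : (X : ℝ) ≤ W + 1 := by rw [hX]; push_cast; linarith [Nat.floor_le (show (0 : ℝ) ≤ W by linarith)]
  have hlate : lateS a (X : ℝ) = ∅ := by
    rw [← card_eq_zero]
    have h1 := h X (by linarith)
    by_contra hcon
    have h2 : 1 ≤ (lateS a (X : ℝ)).card := Nat.one_le_iff_ne_zero.2 hcon
    have h3 : (1 : ℝ) ≤ (lateS a (X : ℝ)).card := by exact_mod_cast h2
    nlinarith
  have hle : ∀ b ∈ red a, lp a b ≤ X := by
    intro b hb
    by_contra hcon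
    push Not at hcon
    have h1 : b ∈ (red a).filter (fun b => (X : ℝ) < (lp a b : ℝ)) := by
      rw [mem_filter]
      exact ⟨hb, by exact_mod_cast hcon⟩
    rw [filter_red, hlate] at h1
    simp at h1
  have h1 : ∀ b ∈ red a, (lp a b : ℝ) = ∑ n ∈ range X, (if n < lp a b then (1 : ℝ) else 0) := by
    intro b hb
    rw [← sum_filter, sum_const, nsmul_eq_mul, mul_one]
    congr 1
    have : (range X).filter (fun n => n < lp a b) = range (lp a b) := by
      ext n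
      rw [mem_filter, mem_range, mem_range]
      have := hle b hb
      omega
    rw [this, card_range]
  rw [sum_congr rfl h1, sum_comm]
  have h2 : ∀ n ∈ range X, ∑ b ∈ red a, (if n < lp a b then (1 : ℝ) else 0) = ((lateS a (n : ℝ)).card : ℝ) := by
    intro n _
    rw [← sum_filter, sum_const, nsmul_eq_mul, mul_one, ← filter_red]
    congr 2
    ext b
    rw [mem_filter, mem_filter]
    simp only [Nat.cast_lt]
  rw [sum_congr rfl h2, range_eq_Ico, ← sum_Ico_consecutive _ (Nat.zero_le 1) (by omega : 1 ≤ X)]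
  have h3 : ∑ n ∈ Ico (0 : ℕ) 1, ((lateS a (n : ℝ)).card : ℝ) ≤ Nat.totient a := by
    rw [show Ico (0 : ℕ) 1 = {0} from rfl, sum_singleton]
    exact_mod_cast lateS_card_le a _
  have h4 : ∑ n ∈ Ico 1 X, ((lateS a (n : ℝ)).card : ℝ) ≤ W * (1 + Real.log (W + 1)) := by
    calc ∑ n ∈ Ico 1 X, ((lateS a (n : ℝ)).card : ℝ) ≤ ∑ n ∈ Ico 1 X, W * (1 / (n : ℝ)) := by
          apply sum_le_sum
          intro n hn
          rw [mem_Ico] at hn
          have hn0 : (0 : ℝ) < n := by exact_mod_cast (by omega : 0 < n)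
          rw [mul_one_div, le_div_iff₀ hn0]
          exact h n hn0
      _ = W * ∑ n ∈ Ico 1 X, (1 / (n : ℝ)) := by rw [mul_sum]
      _ ≤ W * (1 + Real.log X) := by
          apply mul_le_mul_of_nonneg_left (harm_le X) (by linarith)
      _ ≤ W * (1 + Real.log (W + 1)) := by
          apply mul_le_mul_of_nonneg_left _ (by linarith)
          have := Real.log_le_log (by linarith : (0 : ℝ) < X) hXW2
          linarith
  linarith

/-- `log N ≤ 2 log a` if `N ≤ a log ^ (U + 1) N` -/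
lemma log_conv (U : ℕ) : ∃ N₀ : ℕ, ∀ N : ℕ, N₀ ≤ N → ∀ a : ℕ, (N : ℝ) ≤ a * Real.log N ^ (U + 1) →
    Real.log N ≤ 2 * Real.log a := by
  obtain ⟨n1, h1⟩ := ev_pow 1 (2 * (U + 1))
  refine ⟨max n1 3, fun N hN a ha => ?_⟩
  have hN1 := h1 N ((le_max_left _ _).trans hN)
  have hN3 : 3 ≤ N := (le_max_right _ _).trans hN
  have hNr : (3 : ℝ) ≤ N := by exact_mod_cast hN3
  have hlog : 0 < Real.log N := Real.log_pos (by linarith)
  rw [one_mul] at hN1
  have ha0 : (0 : ℝ) < a := by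
    rcases Nat.eq_zero_or_pos a with h | h
    · subst h
      simp only [Nat.cast_zero, zero_mul] at ha
      linarith
    · exact_mod_cast h
  have h2 : (N : ℝ) ^ 2 ≤ (a : ℝ) ^ 2 * N := by
    calc (N : ℝ) ^ 2 ≤ (a * Real.log N ^ (U + 1)) ^ 2 := pow_le_pow_left₀ (by linarith) ha 2
      _ = (a : ℝ) ^ 2 * Real.log N ^ (2 * (U + 1)) := by ring
      _ ≤ (a : ℝ) ^ 2 * N := mul_le_mul_of_nonneg_left hN1.le (by positivity)
  have h3 : (N : ℝ) ≤ (a : ℝ) ^ 2 := by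
    have : (N : ℝ) * N ≤ (a : ℝ) ^ 2 * N := by rw [← sq]; exact h2
    exact le_of_mul_le_mul_right this (by linarith)
  have h4 := Real.log_le_log (by linarith) h3
  rw [Real.log_pow] at h4
  exact_mod_cast h4

/-- **Tail and mean value**, with `φ(a)` and `log a`. -/
theorem mean (U : ℕ) : ∃ (C N₀ : ℕ), ∀ N : ℕ, N₀ ≤ N → ∃ S : Finset ℕ, S ⊆ Icc 1 N ∧
    (S.card : ℝ) * Real.log N ^ U ≤ N ∧
    ∀ a ∈ Icc 1 N, a ∉ S →
      (∀ x : ℝ, 0 < x → ((lateS a x).card : ℝ) * x ≤ (Nat.totient a : ℝ) ^ 2 * Real.log a ^ C) ∧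
      ∑ b ∈ red a, (lp a b : ℝ) ≤ (Nat.totient a : ℝ) ^ 2 * Real.log a ^ C := by
  classical
  obtain ⟨C, n1, h1⟩ := tail U
  obtain ⟨n2, h2⟩ := log_conv U
  obtain ⟨n3, h3⟩ := ev_log (2 * 2 ^ (C + 6) + 100)
  obtain ⟨n4, h4⟩ := ev_pow 1 C
  refine ⟨C + 5, max (max n1 n2) (max n3 n4), fun N hN => ?_⟩
  have hN1 : n1 ≤ N := ((le_max_left _ _).trans (le_max_left _ _)).trans hN
  have hN2 : n2 ≤ N := ((le_max_right _ _).trans (le_max_left _ _)).trans hN
  have hN3 : n3 ≤ N := ((le_max_left _ _).trans (le_max_right _ _)).trans hN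
  have hN4 : n4 ≤ N := ((le_max_right _ _).trans (le_max_right _ _)).trans hN
  obtain ⟨S, hS1, hS2, hS3⟩ := h1 N hN1
  refine ⟨S, hS1, hS2, fun a ha haS => ?_⟩
  obtain ⟨g1, g2⟩ := hS3 a ha haS
  have g3 := h2 N hN2 a g1
  have g4 := h3 N hN3
  have g5 := h4 N hN4
  rw [mem_Icc] at ha
  have har : (1 : ℝ) ≤ a := by exact_mod_cast ha.1
  have haN : (a : ℝ) ≤ N := by exact_mod_cast ha.2
  have hN0 : (1 : ℝ) ≤ N := har.trans haN
  obtain ⟨l, hl⟩ : ∃ l, l = Real.log N := ⟨_, rfl⟩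
  obtain ⟨L, hL⟩ : ∃ L, L = Real.log a := ⟨_, rfl⟩
  obtain ⟨φ, hφ⟩ : ∃ φ : ℝ, φ = Nat.totient a := ⟨_, rfl⟩
  rw [← hl, ← hL] at g3
  rw [← hl] at g1 g2 g4 g5
  rw [one_mul] at g5
  have h2C : (1 : ℝ) ≤ 2 ^ (C + 6) := one_le_pow₀ (by norm_num)
  have hLb : 2 ^ (C + 6) ≤ L := by linarith
  have hl1 : 100 ≤ l := by linarith
  have hl0 : 0 < l := by linarith
  have hL1 : 1 ≤ L := by linarith
  have hφ0 : 0 < φ := by rw [hφ]; exact_mod_cast Nat.totient_pos.2 ha.1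
  have hφa : φ ≤ a := by rw [hφ]; exact_mod_cast Nat.totient_le a
  have haφ : (a : ℝ) ≤ 4 * L * φ := by
    have f2 := Pool.Agent.N837.LP.div_totient_le_log a ha.1
    rw [← hφ, ← hL, div_le_iff₀ hφ0] at f2
    nlinarith
  -- the conversion
  have hconv : l ^ (C + 2) * (a : ℝ) ^ 2 ≤ φ ^ 2 * L ^ (C + 5) := by
    calc l ^ (C + 2) * (a : ℝ) ^ 2 ≤ (2 * L) ^ (C + 2) * (4 * L * φ) ^ 2 := by gcongr
      _ = 2 ^ (C + 6) * (φ ^ 2 * L ^ (C + 4)) := by ring
      _ ≤ L * (φ ^ 2 * L ^ (C + 4)) := by gcongr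
      _ = φ ^ 2 * L ^ (C + 5) := by ring
  obtain ⟨W, hW⟩ : ∃ W, W = l ^ C * (a : ℝ) ^ 2 := ⟨_, rfl⟩
  rw [← hW] at g2
  have hlC : 1 ≤ l ^ C := one_le_pow₀ (by linarith)
  have ha2 : 1 ≤ (a : ℝ) ^ 2 := one_le_pow₀ har
  have hW1 : 1 ≤ W := by rw [hW]; nlinarith
  have haW : (a : ℝ) ≤ W := by
    rw [hW]
    nlinarith
  rw [← hφ, ← hL]
  refine ⟨fun x hx => ?_, ?_⟩
  · refine (g2 x hx).trans (le_trans ?_ hconv)
    rw [hW, pow_add]
    have : 1 ≤ l ^ 2 := one_le_pow₀ (by linarith)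
    have h5 : 0 < l ^ C * (a : ℝ) ^ 2 := by positivity
    nlinarith
  · have h5 := sum_lp_le a W hW1 g2
    have h6 : Real.log (W + 1) ≤ 4 * l := by
      have e1 : W + 1 ≤ (N : ℝ) ^ 4 := by
        have hN100 : (2 : ℝ) ≤ N := by
          have : Real.log N ≤ N := (Real.log_le_sub_one_of_pos (by linarith)).trans (by linarith)
          linarith
        calc W + 1 ≤ 2 * W := by linarith
          _ ≤ 2 * (N * (N : ℝ) ^ 2) := by
              rw [hW]
              gcongr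
          _ ≤ N * (N * (N : ℝ) ^ 2) := by gcongr
          _ = (N : ℝ) ^ 4 := by ring
      have e2 := Real.log_le_log (by linarith) e1
      rw [Real.log_pow, ← hl] at e2
      exact_mod_cast e2
    rw [← hφ] at h5
    refine h5.trans (le_trans ?_ hconv)
    calc φ + W * (1 + Real.log (W + 1)) ≤ W + W * (1 + 4 * l) := by
          have : W * (1 + Real.log (W + 1)) ≤ W * (1 + 4 * l) := by
            apply mul_le_mul_of_nonneg_left _ (by linarith)
            linarith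
          linarith
      _ ≤ W * l ^ 2 := by
          have e1 : 2 + 4 * l ≤ l ^ 2 := by nlinarith
          have e2 := mul_le_mul_of_nonneg_left e1 (show (0 : ℝ) ≤ W by linarith)
          linarith
      _ = l ^ (C + 2) * (a : ℝ) ^ 2 := by rw [hW]; ring

end Pool.Agent.J4H72.LP
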