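import Pool.Agent.J4H72.LP.LpgAll
import Pool.Agent.H336R2.V.TotLog

set_option autoImplicit false

/-! The moments of the least primes in the classes modulo almost all moduli. -/

namespace Pool.Agent.J4H72.LP

open Finset
open Pool.Agent.R501.LP (LpG0 LpG lpg_iff lpg_of_var)

lemma beta_ge_one (κ : ℝ) (h0 : 0 < κ) (h1 : κ < 1) : 1 ≤ Real.pi * κ / Real.sin (Real.pi * κ) := by
  have h2 := sin_pos' κ h0 h1
  rw [le_div_iff₀ h2, one_mul]
  exact Real.sin_le (by have := Real.pi_pos; positivity)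

/-- deterministic part -/
lemma moment_det (C : ℕ) (δ ε : ℝ) (hδ : 0 < δ) (hε : 0 < ε) (K : ℕ) (hK : (C : ℝ) + 4 ≤ K * δ) : ∃ a₀ : ℕ,
    ∀ a : ℕ, a₀ ≤ a → (∀ x : ℝ, 0 < x → ((lateS a x).card : ℝ) * x ≤ (2 * Real.log a) ^ C * (a : ℝ) ^ 2) →
    LpG ε K a → ∀ κ : ℝ, 0 < κ → κ ≤ 1 - δ →
      ∑ b ∈ red a, (lp a b : ℝ) ^ κ ≤ (1 + 2 * ε) * (Real.pi * κ / Real.sin (Real.pi * κ)) *
        (Nat.totient a * (Nat.totient a * Real.log a) ^ κ) := by
  classical
  obtain ⟨k0, hk0⟩ := H336V.totient_log (1 / ε)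
  obtain ⟨n1, hn1⟩ := ev_log (16 * 2 ^ C / (δ * ε) + 4)
  obtain ⟨n2, hn2⟩ := exists_nat_ge k0
  refine ⟨max (max n1 n2) 3, fun a ha htail hlpg κ hκ hκδ => ?_⟩
  have han1 : n1 ≤ a := ((le_max_left _ _).trans (le_max_left _ _)).trans ha
  have han2 : n2 ≤ a := ((le_max_right _ _).trans (le_max_left _ _)).trans ha
  have ha3 : 3 ≤ a := (le_max_right _ _).trans ha
  have har : (3 : ℝ) ≤ a := by exact_mod_cast ha3
  have ha0 : (0 : ℝ) < a := by linarith
  have hκ1 : κ < 1 := by linarith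
  have hL := hn1 a han1
  have htot := hk0 a (hn2.trans (by exact_mod_cast han2))
  have hφ0 : (0 : ℝ) < Nat.totient a := by exact_mod_cast Nat.totient_pos.2 (by omega)
  have htri : ∀ x : ℝ, ((lateS a x).card : ℝ) ≤ Nat.totient a := fun x => by exact_mod_cast lateS_card_le a x
  have hdt := Pool.Agent.N837.LP.div_totient_le_log a (by omega)
  have hlpg' : ∀ x : ℝ, (a : ℝ) ≤ x → x ≤ a * Real.log a ^ K →
      ((lateS a x).card : ℝ) * (1 + x / (Nat.totient a * Real.log a)) ≤ (1 + ε) * Nat.totient a := by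
    intro x hx1 hx2
    have h := (hlpg x hx1 hx2).1
    unfold lateS
    exact h
  obtain ⟨φ, hφ⟩ : ∃ φ : ℝ, φ = Nat.totient a := ⟨_, rfl⟩
  obtain ⟨L, hLd⟩ : ∃ L : ℝ, L = Real.log a := ⟨_, rfl⟩
  rw [← hφ] at htri htot hφ0 hdt
  rw [← hφ, ← hLd] at hlpg' ⊢
  rw [← hLd] at hL htot hdt htail
  have hL0' : 0 < 16 * 2 ^ C / (δ * ε) := by positivity
  have hL4 : 4 ≤ L := by linarith
  have hL1 : 1 ≤ L := by linarith
  have hL0 : 0 < L := by linarith
  have hs : 0 < φ * L := by positivity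
  have haφ : (a : ℝ) ≤ 4 * L * φ := by
    rw [div_le_iff₀ hφ0] at hdt
    nlinarith
  have has : (a : ℝ) / (φ * L) ≤ ε := by
    rw [div_le_iff₀ hs]
    have h1 : 1 / ε * (a : ℝ) ≤ φ * L := by
      have h2 : φ / a * L = φ * L / a := by ring
      rw [h2, le_div_iff₀ ha0] at htot
      exact htot
    rw [one_div, inv_mul_le_iff₀ hε] at h1
    exact h1
  have h1 := moment_le κ hκ hκ1 (red a) (fun b => (lp a b : ℝ)) (fun b => Nat.cast_nonneg _)
    0 ((1 + ε) * φ) (φ * L) 0 ((2 * L) ^ C * (a : ℝ) ^ 2) (a * L ^ K) le_rfl (by positivity) hs le_rfl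
    (by positivity) (by positivity) (by
      intro x hx
      have e0 : (if x < 0 then (0 : ℝ) else 0) = 0 := by split_ifs <;> rfl
      rw [e0, zero_add, filter_red]
      have hd : 0 < 1 + x / (φ * L) := by positivity
      have hnn : 0 ≤ (1 + ε) * φ * (1 / (1 + x / (φ * L))) := by positivity
      have hnn2 : 0 ≤ (if (a : ℝ) * L ^ K < x then (2 * L) ^ C * (a : ℝ) ^ 2 / x else 0) := by
        split_ifs
        · positivity
        · exact le_rfl
      rcases lt_or_ge x a with hc | hc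
      · have e1 : φ ≤ (1 + ε) * φ * (1 / (1 + x / (φ * L))) := by
          rw [mul_one_div, le_div_iff₀ hd]
          have e2 : x / (φ * L) ≤ ε := le_trans (div_le_div_of_nonneg_right hc.le hs.le) has
          nlinarith
        have e3 := htri x
        linarith
      · rcases le_or_gt x (a * L ^ K) with hc2 | hc2
        · have e1 := hlpg' x hc hc2
          rw [← le_div_iff₀ hd] at e1
          have e2 : (1 + ε) * φ / (1 + x / (φ * L)) = (1 + ε) * φ * (1 / (1 + x / (φ * L))) := by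
            rw [mul_one_div]
          rw [e2] at e1
          linarith
        · rw [if_pos hc2]
          have e1 := htail x hx
          rw [← le_div_iff₀ hx] at e1
          linarith)
  rw [zero_mul, zero_add] at h1
  refine h1.trans ?_
  obtain ⟨B, hB⟩ : ∃ B, B = Real.pi * κ / Real.sin (Real.pi * κ) := ⟨_, rfl⟩
  have hB1 : 1 ≤ B := by rw [hB]; exact beta_ge_one κ hκ hκ1
  rw [← hB]
  -- the tail is small
  have hsmall : (2 * L) ^ C * (a : ℝ) ^ 2 * (κ / (1 - κ)) * (a * L ^ K) ^ (κ - 1) ≤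
      ε * (φ * (φ * L) ^ κ) := by
    have e1 : κ / (1 - κ) ≤ 1 / δ := by
      rw [div_le_div_iff₀ (by linarith) hδ]
      nlinarith
    have e2 : ((a : ℝ) * L ^ K) ^ (κ - 1) ≤ (a : ℝ) ^ κ / a * (1 / L ^ (C + 4)) := by
      rw [Real.mul_rpow ha0.le (by positivity), Real.rpow_sub_one ha0.ne']
      apply mul_le_mul_of_nonneg_left _ (by positivity)
      rw [← Real.rpow_natCast L K, ← Real.rpow_mul hL0.le, one_div, ← Real.rpow_natCast L (C + 4),
        ← Real.rpow_neg hL0.le]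
      apply Real.rpow_le_rpow_of_exponent_le hL1
      push_cast
      have : (K : ℝ) * (κ - 1) ≤ K * (-δ) := mul_le_mul_of_nonneg_left (by linarith) (Nat.cast_nonneg _)
      linarith
    have e3 : (a : ℝ) / (4 * L) ≤ φ := by
      rw [div_le_iff₀ (by positivity)]
      linarith
    have e4 : (a : ℝ) ^ κ / 4 ≤ (φ * L) ^ κ := by
      have f1 : (a : ℝ) / 4 ≤ φ * L := by linarith
      have f2 := Real.rpow_le_rpow (by positivity) f1 hκ.le
      rw [Real.div_rpow ha0.le (by norm_num)] at f2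
      refine le_trans ?_ f2
      apply div_le_div_of_nonneg_left (by positivity) (by positivity)
      calc (4 : ℝ) ^ κ ≤ 4 ^ (1 : ℝ) := Real.rpow_le_rpow_of_exponent_le (by norm_num) hκ1.le
        _ = 4 := Real.rpow_one 4
    obtain ⟨z, hz⟩ : ∃ z, z = (a : ℝ) ^ κ := ⟨_, rfl⟩
    have hz0 : 0 < z := by rw [hz]; positivity
    rw [← hz] at e2 e4
    have e5 : 0 ≤ κ / (1 - κ) := div_nonneg hκ.le (by linarith)
    calc (2 * L) ^ C * (a : ℝ) ^ 2 * (κ / (1 - κ)) * (a * L ^ K) ^ (κ - 1)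
        ≤ (2 * L) ^ C * (a : ℝ) ^ 2 * (1 / δ) * (z / a * (1 / L ^ (C + 4))) := by
          apply mul_le_mul _ e2 (by positivity) (by positivity)
          exact mul_le_mul_of_nonneg_left e1 (by positivity)
      _ = (16 * 2 ^ C / (δ * L ^ 3)) * ((a / (4 * L)) * (z / 4)) := by
          rw [mul_pow, pow_add L C 4]
          field_simp
          try ring
      _ ≤ ε * ((a / (4 * L)) * (z / 4)) := by
          apply mul_le_mul_of_nonneg_right _ (by positivity)
          rw [div_le_iff₀ (by positivity)]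
          have f1 : 16 * 2 ^ C / (δ * ε) ≤ L := by linarith
          rw [div_le_iff₀ (by positivity)] at f1
          have f2 : 1 ≤ L ^ 2 := one_le_pow₀ hL1
          have f3 : 0 < L * (δ * ε) := by positivity
          calc (16 : ℝ) * 2 ^ C ≤ L * (δ * ε) := f1
            _ ≤ (L * (δ * ε)) * L ^ 2 := le_mul_of_one_le_right f3.le f2
            _ = ε * (δ * L ^ 3) := by ring
      _ ≤ ε * (φ * (φ * L) ^ κ) := by
          apply mul_le_mul_of_nonneg_left _ hε.le
          exact mul_le_mul e3 e4 (by positivity) hφ0.le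
  have hX : 0 < φ * (φ * L) ^ κ := by positivity
  calc (1 + ε) * φ * ((φ * L) ^ κ * B) + (2 * L) ^ C * (a : ℝ) ^ 2 * (κ / (1 - κ)) * (a * L ^ K) ^ (κ - 1)
      ≤ (1 + ε) * φ * ((φ * L) ^ κ * B) + ε * (φ * (φ * L) ^ κ) := by linarith
    _ ≤ (1 + ε) * φ * ((φ * L) ^ κ * B) + B * (ε * (φ * (φ * L) ^ κ)) := by
        have : ε * (φ * (φ * L) ^ κ) ≤ B * (ε * (φ * (φ * L) ^ κ)) := le_mul_of_one_le_left (by positivity) hB1
        linarith
    _ = (1 + 2 * ε) * B * (φ * (φ * L) ^ κ) := by ring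

/-- **The moments of the least primes.** -/
theorem moments (δ ε : ℝ) (hδ : 0 < δ) (hε : 0 < ε) (U : ℕ) : ∃ N₀ : ℕ, ∀ N : ℕ, N₀ ≤ N →
    ∃ S : Finset ℕ, S ⊆ Icc 1 N ∧ (S.card : ℝ) * Real.log N ^ U ≤ N ∧
    ∀ a ∈ Icc 1 N, a ∉ S → 3 ≤ a ∧ ∀ κ : ℝ, 0 < κ → κ ≤ 1 - δ →
      (1 / (1 + κ) - ε) * (Nat.totient a * (Nat.totient a * Real.log a) ^ κ) ≤ ∑ b ∈ red a, (lp a b : ℝ) ^ κ ∧
      ∑ b ∈ red a, (lp a b : ℝ) ^ κ ≤ (Real.pi * κ / Real.sin (Real.pi * κ)) * (1 + ε) *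
        (Nat.totient a * (Nat.totient a * Real.log a) ^ κ) := by
  classical
  obtain ⟨e, he⟩ : ∃ e, e = min (ε / 2) 1 := ⟨_, rfl⟩
  have he0 : 0 < e := by rw [he]; positivity
  have he1 : e ≤ 1 := by rw [he]; exact min_le_right _ _
  have he2 : 2 * e ≤ ε := by
    have : e ≤ ε / 2 := by rw [he]; exact min_le_left _ _
    linarith
  obtain ⟨C, n1, h1⟩ := tail (U + 1)
  obtain ⟨K, hK⟩ := exists_nat_ge (((C : ℝ) + 4) / δ)
  rw [div_le_iff₀ hδ] at hK
  obtain ⟨n2, h2⟩ := lpg_most e he0 he1 (U + 1) K (U + 1 + 1)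
  obtain ⟨a1, h3⟩ := moment_det C δ e hδ he0 K hK
  obtain ⟨a2, h4⟩ := lower ε hε
  obtain ⟨n3, h5⟩ := log_conv (U + 1)
  obtain ⟨n4, h6⟩ := ev_log (2 * Real.log (a1 + a2 + 3) + 2)
  refine ⟨max (max n1 n2) (max n3 n4), fun N hN => ?_⟩
  have hN1 : n1 ≤ N := ((le_max_left _ _).trans (le_max_left _ _)).trans hN
  have hN2 : n2 ≤ N := ((le_max_right _ _).trans (le_max_left _ _)).trans hN
  have hN3 : n3 ≤ N := ((le_max_left _ _).trans (le_max_right _ _)).trans hN
  have hN4 : n4 ≤ N := ((le_max_right _ _).trans (le_max_right _ _)).trans hN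
  obtain ⟨S1, hS1, hS1c, hS1m⟩ := h1 N hN1
  obtain ⟨S2, hS2, hS2c, hS2m⟩ := h2 N hN2
  have hell := h6 N hN4
  have hpos : 0 ≤ Real.log ((a1 : ℝ) + a2 + 3) := Real.log_nonneg (by
    have : (0 : ℝ) ≤ a1 := Nat.cast_nonneg _
    have : (0 : ℝ) ≤ a2 := Nat.cast_nonneg _
    linarith)
  obtain ⟨l, hl⟩ : ∃ l, l = Real.log N := ⟨_, rfl⟩
  refine ⟨S1 ∪ S2, union_subset hS1 hS2, ?_, ?_⟩
  · rw [← hl] at hell hS1c hS2c ⊢
    have hl2 : 2 ≤ l := by linarith
    have c2 : ((S1 ∪ S2).card : ℝ) ≤ S1.card + S2.card := by exact_mod_cast card_union_le _ _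
    have hlU : 0 < l ^ U := by positivity
    have c3 : (S1.card : ℝ) * l ^ U * l ≤ N := by rw [mul_assoc, ← pow_succ]; exact hS1c
    have c4 : (S2.card : ℝ) * l ^ U * l ≤ N := by rw [mul_assoc, ← pow_succ]; exact hS2c
    have c5 : 0 ≤ (S1.card : ℝ) * l ^ U := by positivity
    have c6 : 0 ≤ (S2.card : ℝ) * l ^ U := by positivity
    calc ((S1 ∪ S2).card : ℝ) * l ^ U ≤ (S1.card + S2.card) * l ^ U := by gcongr
      _ ≤ N := by nlinarith
  · intro a ha haS
    rw [mem_union, not_or] at haS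
    obtain ⟨g1, g2⟩ := hS1m a ha haS.1
    have g3 := hS2m a ha haS.2 g1
    have g4 := h5 N hN3 a g1
    have ha' := mem_Icc.1 ha
    have ha0 : (1 : ℝ) ≤ a := by exact_mod_cast ha'.1
    have hbig : a1 + a2 + 3 ≤ a := by
      have e1 : Real.log ((a1 : ℝ) + a2 + 3) < Real.log a := by linarith
      have e2 := (Real.log_lt_log_iff (by positivity) (by linarith)).1 e1
      have e3 : ((a1 + a2 + 3 : ℕ) : ℝ) < a := by push_cast; exact e2
      have e4 : a1 + a2 + 3 < a := by exact_mod_cast e3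
      omega
    refine ⟨by omega, fun κ hκ hκδ => ⟨?_, ?_⟩⟩
    · exact h4 a (by omega) κ hκ (by linarith)
    · have h7 := h3 a (by omega) (fun x hx => (g2 x hx).trans (by
        apply mul_le_mul_of_nonneg_right _ (by positivity)
        exact pow_le_pow_left₀ (by linarith) g4 C)) g3 κ hκ hκδ
      refine h7.trans ?_
      have hB1 := beta_ge_one κ hκ (by linarith)
      have hlog : 0 ≤ Real.log a := Real.log_nonneg ha0
      have hX : 0 ≤ (Nat.totient a : ℝ) * ((Nat.totient a : ℝ) * Real.log a) ^ κ := by positivity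
      apply mul_le_mul_of_nonneg_right _ hX
      rw [mul_comm]
      exact mul_le_mul_of_nonneg_left (by linarith) (by linarith)

end Pool.Agent.J4H72.LP
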