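import Pool.Agent.H343R2.EH.Psi
import Pool.Agent.H343R2.EH.Primes
import Pool.Agent.H343R2.EH.Exc
import Pool.Agent.N837.LP.Tot

set_option autoImplicit false

/-! The tail of the distribution of the least primes in the classes modulo almost all moduli. -/

namespace Pool.Agent.J4H72.LP

open Finset

open Classical in
/-- the reduced classes `b < a` without a prime `≤ x` -/
noncomputable def lateS (a : ℕ) (x : ℝ) : Finset ℕ :=
  (range a).filter (fun b => Nat.Coprime b a ∧ ∀ p : ℕ, p.Prime → (p : ℝ) ≤ x → ¬ p % a = b)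

lemma lateS_anti (a : ℕ) {x y : ℝ} (h : x ≤ y) : lateS a y ⊆ lateS a x := by
  classical
  intro b hb
  unfold lateS at hb ⊢
  rw [mem_filter] at hb ⊢
  exact ⟨hb.1, hb.2.1, fun p hp hpx => hb.2.2 p hp (hpx.trans h)⟩

lemma lateS_card_le (a : ℕ) (x : ℝ) : (lateS a x).card ≤ Nat.totient a := by
  classical
  rw [Nat.totient_eq_card_coprime]
  apply card_le_card
  intro b hb
  unfold lateS at hb
  rw [mem_filter] at hb ⊢
  exact ⟨hb.1, hb.2.1.symm⟩

/-- `π(x) ≥ x / (2 log x)` -/
lemma pi1_ge : ∃ x0 : ℕ, ∀ x : ℕ, x0 ≤ x → (x : ℝ) / (2 * Real.log x) ≤ H343E.pi1 x := by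
  have h1 : ∀ᶠ x : ℕ in Filter.atTop, Real.log ((x : ℝ) + 1) ≤ (1 / 10) * ((x : ℝ) + 1) := by
    have h2 := (Real.isLittleO_log_id_atTop.bound (show (0 : ℝ) < 1 / 10 by norm_num))
    have h3 : Filter.Tendsto (fun x : ℕ => (x : ℝ) + 1) Filter.atTop Filter.atTop :=
      Filter.tendsto_atTop_add_const_right _ _ tendsto_natCast_atTop_atTop
    filter_upwards [h3.eventually h2] with x hx
    have h4 : 0 ≤ Real.log ((x : ℝ) + 1) := Real.log_nonneg (by linarith [Nat.cast_nonneg (α := ℝ) x])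
    simp only [id] at hx
    rw [Real.norm_of_nonneg h4, Real.norm_of_nonneg (by positivity)] at hx
    exact hx
  obtain ⟨x1, hx1⟩ := Filter.eventually_atTop.1 h1
  refine ⟨max x1 3, fun x hx => ?_⟩
  have hx3 : 3 ≤ x := (le_max_right _ _).trans hx
  have hxr : (3 : ℝ) ≤ x := by exact_mod_cast hx3
  have hlog : 0 < Real.log x := Real.log_pos (by linarith)
  have h2 := hx1 x ((le_max_left _ _).trans hx)
  have h3 := Chebyshev.psi_le_primeCounting_mul_log x
  have h4 := Chebyshev.psi_ge x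
  have h5 : H343E.pi1 x = (Nat.primeCounting x : ℝ) := by
    unfold H343E.pi1
    rw [Nat.primeCounting, Nat.primeCounting', Nat.count_eq_card_filter_range]
    congr 2
    ext p
    simp only [mem_filter, mem_Icc, mem_range]
    constructor
    · rintro ⟨⟨_, h⟩, hp⟩
      exact ⟨by omega, hp⟩
    · rintro ⟨h, hp⟩
      exact ⟨⟨hp.one_lt.le, by omega⟩, hp⟩
  rw [h5, div_le_iff₀ (by positivity)]
  have h6 := Real.log_two_gt_d9
  have h7 : (x : ℝ) * Real.log 2 ≥ x * 0.69 := mul_le_mul_of_nonneg_left (by linarith) (by linarith)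
  nlinarith

/-- the theorem of Bombieri and Vinogradov with exceptional classes -/
theorem exc (U : ℕ) : ∃ (B x0 : ℕ), ∀ x : ℕ, x0 ≤ x → ∃ (E : ℕ → Finset ℕ) (M : ℕ → ℝ),
    (∀ q, 1 ≤ q → ((E q).card : ℝ) ≤ Real.log x ^ B * q ^ 2 / x) ∧
    (∀ q a : ℕ, 1 ≤ q → a < q → a.Coprime q → a ∉ E q →
      |H343E.piAP x q a - H343E.pi1 x / (Nat.totient q : ℝ)| ≤ M q) ∧
    (∀ q, 0 ≤ M q) ∧
    ∑ q ∈ Icc 1 x, M q ≤ x / Real.log x ^ U :=
  H343E.exceptional_of_primes (fun U => H343E.primes_of U (H343E.unsmoothed (U + 2))) U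

/-- one scale: for all but few moduli `a ≤ N` -/
theorem one_scale (U : ℕ) : ∃ (B x0 : ℕ), ∀ X : ℕ, x0 ≤ X → ∀ N : ℕ, 1 ≤ N → N ≤ X →
    ∃ S : Finset ℕ, S ⊆ Icc 1 N ∧ (S.card : ℝ) * Real.log X ^ U ≤ N ∧
    ∀ a ∈ Icc 1 N, a ∉ S → ((lateS a X).card : ℝ) ≤ Real.log X ^ B * a ^ 2 / X := by
  classical
  obtain ⟨B, x1, h1⟩ := exc (U + 2)
  obtain ⟨x2, h2⟩ := pi1_ge
  refine ⟨B, max (max x1 x2) 8, fun X hX N hN hNX => ?_⟩
  have hX1 : x1 ≤ X := ((le_max_left _ _).trans (le_max_left _ _)).trans hX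
  have hX2 : x2 ≤ X := ((le_max_right _ _).trans (le_max_left _ _)).trans hX
  have hX8 : 8 ≤ X := (le_max_right _ _).trans hX
  have hXr : (8 : ℝ) ≤ X := by exact_mod_cast hX8
  have hX0 : (0 : ℝ) < X := by linarith
  have hlog : 2 ≤ Real.log X := by
    rw [Real.le_log_iff_exp_le hX0]
    have h3 := Real.exp_one_lt_d9
    have h4 : Real.exp 2 = Real.exp 1 * Real.exp 1 := by rw [← Real.exp_add]; norm_num
    rw [h4]
    have h5 := Real.exp_pos 1
    nlinarith
  obtain ⟨E, M, hE, hM, hM0, hsum⟩ := h1 X hX1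
  have hpi := h2 X hX2
  have hN0 : (0 : ℝ) < N := by exact_mod_cast hN
  refine ⟨(Icc 1 N).filter (fun a => H343E.pi1 X / (Nat.totient a : ℝ) ≤ M a), filter_subset _ _, ?_, ?_⟩
  · set S := (Icc 1 N).filter (fun a => H343E.pi1 X / (Nat.totient a : ℝ) ≤ M a) with hS
    have h3 : (S.card : ℝ) * (X / (2 * Real.log X * N)) ≤ X / Real.log X ^ (U + 2) := by
      refine le_trans ?_ hsum
      rw [← nsmul_eq_mul, ← sum_const]
      refine le_trans ?_ (sum_le_sum_of_subset_of_nonneg (s := S) (t := Icc 1 X) ?_ ?_)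
      · apply sum_le_sum
        intro a ha
        rw [hS, mem_filter, mem_Icc] at ha
        refine le_trans ?_ ha.2
        have h4 : (0 : ℝ) < Nat.totient a := by exact_mod_cast Nat.totient_pos.2 (by omega)
        have h5 : (Nat.totient a : ℝ) ≤ N := by exact_mod_cast (Nat.totient_le a).trans ha.1.2
        calc (X : ℝ) / (2 * Real.log X * N) = X / (2 * Real.log X) / N := by rw [div_div]
          _ ≤ H343E.pi1 X / N := by gcongr
          _ ≤ H343E.pi1 X / Nat.totient a := by
              apply div_le_div_of_nonneg_left _ h4 h5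
              refine le_trans ?_ hpi
              positivity
      · intro a ha
        rw [hS, mem_filter, mem_Icc] at ha
        rw [mem_Icc]
        omega
      · intro a _ _
        exact hM0 a
    have hl0 : 0 < Real.log X := by linarith
    rw [mul_div_assoc', div_le_div_iff₀ (by positivity) (by positivity)] at h3
    have h6 : (S.card : ℝ) * Real.log X ^ (U + 2) ≤ 2 * Real.log X * N := by
      have : X * ((S.card : ℝ) * Real.log X ^ (U + 2)) ≤ X * (2 * Real.log X * N) := by
        calc X * ((S.card : ℝ) * Real.log X ^ (U + 2)) = S.card * X * Real.log X ^ (U + 2) := by ring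
          _ ≤ _ := h3
      exact le_of_mul_le_mul_left this hX0
    have h7 : ((S.card : ℝ) * Real.log X ^ U * Real.log X) * Real.log X ≤ (2 * N) * Real.log X := by
      calc ((S.card : ℝ) * Real.log X ^ U * Real.log X) * Real.log X = (S.card : ℝ) * Real.log X ^ (U + 2) := by ring
        _ ≤ _ := h6
        _ = _ := by ring
    have h8 := le_of_mul_le_mul_right h7 hl0
    have h9 : 0 ≤ (S.card : ℝ) * Real.log X ^ U := by positivity
    nlinarith
  · intro a ha haS
    rw [mem_filter, not_and] at haS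
    have h3 := haS ha
    push Not at h3
    rw [mem_Icc] at ha
    refine le_trans ?_ (hE a ha.1)
    have hsub : lateS a X ⊆ E a := by
      intro b hb
      unfold lateS at hb
      rw [mem_filter, mem_range] at hb
      by_contra hbE
      have h4 := hM a b ha.1 hb.1 hb.2.1 hbE
      have h5 : H343E.piAP X a b = 0 := by
        unfold H343E.piAP
        rw [Nat.cast_eq_zero, card_eq_zero, filter_eq_empty_iff]
        intro p hp
        rw [mem_Icc] at hp
        rintro ⟨hp1, hp2⟩
        apply hb.2.2 p hp1 (by exact_mod_cast hp.2)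
        have h6 : p % a = b % a := hp2
        rw [h6, Nat.mod_eq_of_lt hb.1]
      rw [h5, zero_sub, abs_neg] at h4
      have h6 := (le_abs_self _).trans h4
      linarith
    exact_mod_cast card_le_card hsub

end Pool.Agent.J4H72.LP
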