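import Pool.Agent.J4H72.LP.Tail

set_option autoImplicit false

/-! The tail of the distribution of the least primes in the classes modulo almost all moduli: all scales. -/

namespace Pool.Agent.J4H72.LP

open Finset

lemma ev_log (K : ℝ) : ∃ N₀ : ℕ, ∀ N : ℕ, N₀ ≤ N → K ≤ Real.log N := by
  have h := (Real.tendsto_log_atTop.comp tendsto_natCast_atTop_atTop).eventually (Filter.eventually_ge_atTop K)
  exact Filter.eventually_atTop.1 h

lemma ev_pow (c : ℝ) (B : ℕ) : ∃ N₀ : ℕ, ∀ N : ℕ, N₀ ≤ N → (c * Real.log N) ^ B < N := by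
  have h1 : (fun x : ℝ => (c * Real.log x) ^ B) =o[Filter.atTop] (fun x : ℝ => x) := by
    have h2 := (isLittleO_log_rpow_atTop (show (0 : ℝ) < 1 / (B + 1 : ℝ) by positivity)).const_mul_left c
    have h3 := h2.pow (show 0 < B + 1 by omega)
    have h4 : (fun x : ℝ => (x ^ (1 / (B + 1 : ℝ))) ^ (B + 1)) =ᶠ[Filter.atTop] (fun x : ℝ => x) := by
      filter_upwards [Filter.eventually_ge_atTop (0 : ℝ)] with x hx
      rw [← Real.rpow_natCast, ← Real.rpow_mul hx]
      push_cast
      rw [one_div, inv_mul_cancel₀ (by positivity), Real.rpow_one]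
    have h5 := h3.congr' Filter.EventuallyEq.rfl h4
    rcases eq_or_ne c 0 with hc | hc
    · subst hc
      rcases Nat.eq_zero_or_pos B with hB | hB
      · subst hB
        simp only [zero_mul, pow_zero]
        exact Asymptotics.isLittleO_const_left.2 (Or.inr (Filter.tendsto_abs_atTop_atTop.congr (fun x => rfl)))
      · simp only [zero_mul, zero_pow (by omega : B ≠ 0)]
        exact Asymptotics.isLittleO_zero _ _
    · refine Asymptotics.IsBigO.trans_isLittleO ?_ h5
      refine Asymptotics.IsBigO.of_bound 1 ?_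
      have h6 : Filter.Tendsto (fun x : ℝ => |c| * Real.log x) Filter.atTop Filter.atTop :=
        Real.tendsto_log_atTop.const_mul_atTop (abs_pos.2 hc)
      filter_upwards [h6.eventually (Filter.eventually_ge_atTop 1), Filter.eventually_ge_atTop (1 : ℝ)] with x hx hx1
      have h7 : 0 ≤ Real.log x := Real.log_nonneg hx1
      simp only [Real.norm_eq_abs, abs_pow, abs_mul, abs_of_nonneg h7, one_mul]
      exact pow_le_pow_right₀ hx (by omega)
  have h2 := (h1.bound (show (0 : ℝ) < 1 / 2 by norm_num))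
  have h3 := tendsto_natCast_atTop_atTop (R := ℝ) |>.eventually h2
  obtain ⟨n0, hn0⟩ := Filter.eventually_atTop.1 h3
  refine ⟨max n0 1, fun N hN => ?_⟩
  have h4 := hn0 N ((le_max_left _ _).trans hN)
  have h5 : (1 : ℝ) ≤ N := by exact_mod_cast (le_max_right _ _).trans hN
  rw [Real.norm_of_nonneg (show (0 : ℝ) ≤ N by linarith)] at h4
  have h6 := (le_abs_self _).trans h4
  linarith

/-- **The tail.** -/
theorem tail (U : ℕ) : ∃ (C N₀ : ℕ), ∀ N : ℕ, N₀ ≤ N → ∃ S : Finset ℕ, S ⊆ Icc 1 N ∧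
    (S.card : ℝ) * Real.log N ^ U ≤ N ∧
    ∀ a ∈ Icc 1 N, a ∉ S → (N : ℝ) ≤ a * Real.log N ^ (U + 1) ∧
      ∀ x : ℝ, 0 < x → ((lateS a x).card : ℝ) * x ≤ Real.log N ^ C * (a : ℝ) ^ 2 := by
  classical
  obtain ⟨B, x1, h1⟩ := one_scale (U + 3)
  obtain ⟨n1, hn1⟩ := ev_log (24 + 2 * 4 ^ B)
  obtain ⟨n2, hn2⟩ := ev_pow 4 B
  refine ⟨B + U + 2, max (max n1 n2) (max x1 8), fun N hN => ?_⟩
  have hNn1 : n1 ≤ N := ((le_max_left _ _).trans (le_max_left _ _)).trans hN
  have hNn2 : n2 ≤ N := ((le_max_right _ _).trans (le_max_left _ _)).trans hN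
  have hNx1 : x1 ≤ N := ((le_max_left _ _).trans (le_max_right _ _)).trans hN
  have hN8 : 8 ≤ N := ((le_max_right _ _).trans (le_max_right _ _)).trans hN
  have hNr : (8 : ℝ) ≤ N := by exact_mod_cast hN8
  have hN0 : (0 : ℝ) < N := by linarith
  have hell := hn1 N hNn1
  have hbig := hn2 N hNn2
  obtain ⟨l, hl⟩ : ∃ l, l = Real.log N := ⟨_, rfl⟩
  rw [← hl] at hell hbig ⊢
  have h4B : (1 : ℝ) ≤ 4 ^ B := one_le_pow₀ (by norm_num)
  have hl24 : 24 ≤ l := by linarith
  have hl1 : 1 ≤ l := by linarith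
  have hl0 : 0 < l := by linarith
  obtain ⟨J, hJ⟩ : ∃ J, J = 2 * Nat.log 2 N + 2 := ⟨_, rfl⟩
  have hX : ∀ j : ℕ, x1 ≤ N * 2 ^ j ∧ N ≤ N * 2 ^ j := by
    intro j
    have h2 : N ≤ N * 2 ^ j := Nat.le_mul_of_pos_right _ (by positivity)
    exact ⟨hNx1.trans h2, h2⟩
  choose T hT1 hT2 hT3 using fun j => h1 (N * 2 ^ j) (hX j).1 N (by omega) (hX j).2
  have hlogX : ∀ j : ℕ, l ≤ Real.log ((N * 2 ^ j : ℕ) : ℝ) := by
    intro j
    rw [hl]
    apply Real.log_le_log hN0
    exact_mod_cast (hX j).2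
  have hJN : N ^ 2 ≤ 2 ^ J ∧ 2 ^ J ≤ 4 * N ^ 2 := by
    have e1 : N < 2 ^ (Nat.log 2 N + 1) := Nat.lt_pow_succ_log_self (by norm_num) N
    have e2 : 2 ^ Nat.log 2 N ≤ N := Nat.pow_log_le_self 2 (by omega)
    constructor
    · calc N ^ 2 ≤ (2 ^ (Nat.log 2 N + 1)) ^ 2 := Nat.pow_le_pow_left e1.le 2
        _ = 2 ^ J := by rw [← pow_mul, hJ]; congr 1; ring
    · calc 2 ^ J = 4 * (2 ^ Nat.log 2 N) ^ 2 := by
            rw [hJ, pow_add, mul_comm 2 (Nat.log 2 N), pow_mul]; ring
        _ ≤ 4 * N ^ 2 := Nat.mul_le_mul_left _ (Nat.pow_le_pow_left e2 2)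
  have hlogJ : (Nat.log 2 N : ℝ) ≤ 3 / 2 * l := by
    have e2 : 2 ^ Nat.log 2 N ≤ N := Nat.pow_log_le_self 2 (by omega)
    have e3 : ((2 : ℝ) ^ Nat.log 2 N) ≤ N := by exact_mod_cast e2
    have e4 := Real.log_le_log (by positivity) e3
    rw [Real.log_pow, ← hl] at e4
    have e5 := Real.log_two_gt_d9
    have e6 : (0 : ℝ) ≤ Nat.log 2 N := Nat.cast_nonneg _
    nlinarith
  have hlogX4 : ∀ j : ℕ, j ≤ J → Real.log ((N * 2 ^ j : ℕ) : ℝ) ≤ 4 * l := by
    intro j hj
    have e1 : N * 2 ^ j ≤ N ^ 4 := by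
      calc N * 2 ^ j ≤ N * 2 ^ J := Nat.mul_le_mul_left _ (Nat.pow_le_pow_right (by norm_num) hj)
        _ ≤ N * (4 * N ^ 2) := Nat.mul_le_mul_left _ hJN.2
        _ = 4 * N ^ 3 := by ring
        _ ≤ N * N ^ 3 := Nat.mul_le_mul_right _ (by omega)
        _ = N ^ 4 := by ring
    have e2 : ((N * 2 ^ j : ℕ) : ℝ) ≤ (N : ℝ) ^ 4 := by exact_mod_cast e1
    have e3 : (0 : ℝ) < ((N * 2 ^ j : ℕ) : ℝ) := by
      have : 0 < N * 2 ^ j := by positivity
      exact_mod_cast this
    have e4 := Real.log_le_log e3 e2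
    rw [Real.log_pow, ← hl] at e4
    exact_mod_cast e4
  set S0 : Finset ℕ := (Icc 1 N).filter (fun a : ℕ => (a : ℝ) * l ^ (U + 1) < N) with hS0
  refine ⟨S0 ∪ (range (J + 1)).biUnion T, ?_, ?_, ?_⟩
  · apply union_subset (filter_subset _ _)
    rw [biUnion_subset]
    intro j _
    exact hT1 j
  · have c0 : (S0.card : ℝ) * l ^ (U + 1) ≤ N := by
      have e1 : S0 ⊆ Icc 1 ⌊(N : ℝ) / l ^ (U + 1)⌋₊ := by
        intro a ha
        rw [hS0, mem_filter, mem_Icc] at ha
        rw [mem_Icc]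
        refine ⟨ha.1.1, Nat.le_floor ?_⟩
        rw [le_div_iff₀ (by positivity)]
        exact ha.2.le
      have e2 := card_le_card e1
      rw [Nat.card_Icc, Nat.add_sub_cancel] at e2
      have e3 : (S0.card : ℝ) ≤ N / l ^ (U + 1) := by
        refine le_trans ?_ (Nat.floor_le (by positivity))
        exact_mod_cast e2
      rwa [le_div_iff₀ (by positivity)] at e3
    have c1 : (((range (J + 1)).biUnion T).card : ℝ) * l ^ (U + 3) ≤ 6 * l * N := by
      have e1 : (((range (J + 1)).biUnion T).card : ℝ) ≤ ∑ j ∈ range (J + 1), ((T j).card : ℝ) := by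
        exact_mod_cast card_biUnion_le
      calc (((range (J + 1)).biUnion T).card : ℝ) * l ^ (U + 3)
          ≤ (∑ j ∈ range (J + 1), ((T j).card : ℝ)) * l ^ (U + 3) := by gcongr
        _ = ∑ j ∈ range (J + 1), ((T j).card : ℝ) * l ^ (U + 3) := by rw [sum_mul]
        _ ≤ ∑ _j ∈ range (J + 1), (N : ℝ) := by
            apply sum_le_sum
            intro j _
            refine le_trans ?_ (hT2 j)
            apply mul_le_mul_of_nonneg_left _ (Nat.cast_nonneg _)
            exact pow_le_pow_left₀ hl0.le (hlogX j) _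
        _ = ((J + 1 : ℕ) : ℝ) * N := by rw [sum_const, card_range, nsmul_eq_mul]
        _ ≤ 6 * l * N := by
            apply mul_le_mul_of_nonneg_right _ hN0.le
            rw [hJ]; push_cast
            linarith
    have c2 : ((S0 ∪ (range (J + 1)).biUnion T).card : ℝ) ≤ S0.card + ((range (J + 1)).biUnion T).card := by
      exact_mod_cast card_union_le _ _
    have c3 : (S0.card : ℝ) * l ^ U * l ≤ N := by rw [mul_assoc, ← pow_succ]; exact c0
    have c4 : (((range (J + 1)).biUnion T).card : ℝ) * l ^ U * l ^ 2 ≤ 6 * N := by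
      have e1 : ((((range (J + 1)).biUnion T).card : ℝ) * l ^ U * l ^ 2) * l ≤ (6 * N) * l := by
        calc ((((range (J + 1)).biUnion T).card : ℝ) * l ^ U * l ^ 2) * l =
          (((range (J + 1)).biUnion T).card : ℝ) * l ^ (U + 3) := by ring
          _ ≤ _ := c1
          _ = _ := by ring
      exact le_of_mul_le_mul_right e1 hl0
    have c5 : (S0.card : ℝ) * l ^ U ≤ N / 24 := by
      have e0 : 0 ≤ (S0.card : ℝ) * l ^ U := by positivity
      nlinarith
    have c6 : (((range (J + 1)).biUnion T).card : ℝ) * l ^ U ≤ 6 * N / 576 := by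
      have e0 : 0 ≤ (((range (J + 1)).biUnion T).card : ℝ) * l ^ U := by positivity
      have e1 : 576 ≤ l ^ 2 := by nlinarith
      nlinarith
    calc ((S0 ∪ (range (J + 1)).biUnion T).card : ℝ) * l ^ U
        ≤ (S0.card + ((range (J + 1)).biUnion T).card) * l ^ U := by gcongr
      _ = S0.card * l ^ U + ((range (J + 1)).biUnion T).card * l ^ U := by ring
      _ ≤ N / 24 + 6 * N / 576 := add_le_add c5 c6
      _ ≤ N := by linarith
  · intro a ha haS
    rw [mem_union, not_or, mem_biUnion] at haS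
    obtain ⟨ha1, ha2⟩ := haS
    push Not at ha2
    have haN : (N : ℝ) ≤ a * l ^ (U + 1) := by
      rw [hS0, mem_filter, not_and] at ha1
      exact not_lt.1 (ha1 ha)
    refine ⟨haN, fun x hx => ?_⟩
    have ha' := mem_Icc.1 ha
    have har : (1 : ℝ) ≤ a := by exact_mod_cast ha'.1
    have haNr : (a : ℝ) ≤ N := by exact_mod_cast ha'.2
    rcases lt_or_ge x N with hxN | hxN
    · have e1 : ((lateS a x).card : ℝ) ≤ a := by
        exact_mod_cast (lateS_card_le a x).trans (Nat.totient_le a)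
      calc ((lateS a x).card : ℝ) * x ≤ a * N := by
            apply mul_le_mul e1 hxN.le hx.le (by linarith)
        _ ≤ a * (a * l ^ (U + 1)) := by gcongr
        _ = l ^ (U + 1) * a ^ 2 := by ring
        _ ≤ l ^ (B + U + 2) * a ^ 2 := by
            apply mul_le_mul_of_nonneg_right _ (by positivity)
            exact pow_le_pow_right₀ hl1 (by omega)
    · obtain ⟨t, ht⟩ : ∃ t, t = ⌊x⌋₊ / N := ⟨_, rfl⟩
      have hfl : N ≤ ⌊x⌋₊ := Nat.le_floor hxN
      have ht1 : 1 ≤ t := by rw [ht]; exact (Nat.one_le_div_iff (by omega)).2 hfl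
      have hNt : N * t ≤ ⌊x⌋₊ := by rw [ht]; exact Nat.mul_div_le _ _
      have hNt2 : ⌊x⌋₊ < N * (t + 1) := by
        rw [ht]
        exact Nat.lt_mul_div_succ _ (by omega)
      have key : ∀ j : ℕ, j ≤ J → 2 ^ j ≤ t →
          ((lateS a x).card : ℝ) ≤ (4 * l) ^ B * a ^ 2 / ((N : ℝ) * 2 ^ j) := by
        intro j hj hjt
        have e1 : ((N * 2 ^ j : ℕ) : ℝ) ≤ x := by
          have : N * 2 ^ j ≤ ⌊x⌋₊ := (Nat.mul_le_mul_left _ hjt).trans hNt
          exact (Nat.le_floor_iff hx.le).1 this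
        have e2 := hT3 j a ha (ha2 j (by rw [mem_range]; omega))
        have e3 : ((lateS a x).card : ℝ) ≤ ((lateS a ((N * 2 ^ j : ℕ) : ℝ)).card : ℝ) := by
          exact_mod_cast card_le_card (lateS_anti a e1)
        refine e3.trans (e2.trans ?_)
        have e4 : (0 : ℝ) < ((N * 2 ^ j : ℕ) : ℝ) := by
          have : 0 < N * 2 ^ j := by positivity
          exact_mod_cast this
        have e5 : ((N * 2 ^ j : ℕ) : ℝ) = (N : ℝ) * 2 ^ j := by push_cast; rfl
        rw [e5]
        rw [e5] at e4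
        apply div_le_div_of_nonneg_right _ e4.le
        apply mul_le_mul_of_nonneg_right _ (by positivity)
        rw [← e5]
        exact pow_le_pow_left₀ (hl0.le.trans (hlogX j)) (hlogX4 j hj) _
      rcases le_or_gt (Nat.log 2 t) J with hc | hc
      · have e1 := key (Nat.log 2 t) hc (Nat.pow_log_le_self 2 (by omega))
        have e2 : t < 2 ^ (Nat.log 2 t + 1) := Nat.lt_pow_succ_log_self (by norm_num) t
        obtain ⟨w, hw⟩ : ∃ w, w = Nat.log 2 t := ⟨_, rfl⟩
        rw [← hw] at e1 e2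
        have e3 : x ≤ 2 * (N * 2 ^ w) := by
          have e4 : x < ⌊x⌋₊ + 1 := Nat.lt_floor_add_one x
          have e5 : ⌊x⌋₊ + 1 ≤ N * 2 ^ (w + 1) :=
            (Nat.succ_le_of_lt hNt2).trans (Nat.mul_le_mul_left _ e2)
          have e6 : ((⌊x⌋₊ : ℕ) : ℝ) + 1 ≤ N * 2 ^ (w + 1) := by exact_mod_cast e5
          rw [pow_succ] at e6
          linarith
        have e7 : (0 : ℝ) < (N : ℝ) * 2 ^ w := by positivity
        calc ((lateS a x).card : ℝ) * x ≤ ((4 * l) ^ B * a ^ 2 / ((N : ℝ) * 2 ^ w)) * (2 * (N * 2 ^ w)) :=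
              mul_le_mul e1 e3 hx.le (by positivity)
          _ = (2 * 4 ^ B) * l ^ B * a ^ 2 := by
              rw [mul_pow]
              field_simp
          _ ≤ l * l ^ B * a ^ 2 := by
              apply mul_le_mul_of_nonneg_right _ (by positivity)
              apply mul_le_mul_of_nonneg_right _ (by positivity)
              linarith
          _ = l ^ (B + 1) * a ^ 2 := by ring
          _ ≤ l ^ (B + U + 2) * a ^ 2 := by
              apply mul_le_mul_of_nonneg_right _ (by positivity)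
              exact pow_le_pow_right₀ hl1 (by omega)
      · have e0 : 2 ^ J ≤ t := (Nat.pow_le_pow_right (by norm_num) hc.le).trans (Nat.pow_log_le_self 2 (by omega))
        have e1 := key J le_rfl e0
        have e2 : (N : ℝ) ^ 2 ≤ 2 ^ J := by exact_mod_cast hJN.1
        have e3 : ((lateS a x).card : ℝ) < 1 := by
          refine e1.trans_lt ?_
          rw [div_lt_one (by positivity)]
          calc (4 * l) ^ B * (a : ℝ) ^ 2 < (N : ℝ) * (a : ℝ) ^ 2 := by
                apply mul_lt_mul_of_pos_right hbig (by positivity)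
            _ ≤ (N : ℝ) * (N : ℝ) ^ 2 := by gcongr
            _ ≤ (N : ℝ) * 2 ^ J := by gcongr
        have e4 : (lateS a x).card = 0 := by
          have : (lateS a x).card < 1 := by exact_mod_cast e3
          omega
        rw [e4]
        simp only [Nat.cast_zero, zero_mul]
        positivity

end Pool.Agent.J4H72.LP
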